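import Mathlib
import Pool.Agent.Q60.ED.TP

/-!
# Project ZG: one explicit power decides the Hodge conjecture for all powers. Definitions
-/

set_option autoImplicit false

namespace Pool.Agent.Q271.ZG

open Matrix Pool.Agent.Q60.ED

variable {ι : Type} [Fintype ι] [DecidableEq ι]

/-- the matrix of the derivation of the tensors of degree `n` defined by `x` -/
def dTP (x : Matrix ι ι ℂ) (n : ℕ) : Matrix (Fin n → ι) (Fin n → ι) ℂ :=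
  Matrix.of fun I J => ∑ k, if ∀ l, l ≠ k → I l = J l then x (I k) (J k) else 0

/-- `M` is an intertwiner between the tensors of degree `i` and `j` -/
def Tw (𝔤 : Submodule ℂ (Matrix ι ι ℂ)) (i j : ℕ) (M : Matrix (Fin j → ι) (Fin i → ι) ℂ) : Prop :=
  ∀ x ∈ 𝔤, dTP x j * M = M * dTP x i

/-- the matrix `g` commutes with `M` -/
def Cm (g : Matrix ι ι ℂ) (i j : ℕ) (M : Matrix (Fin j → ι) (Fin i → ι) ℂ) : Prop :=
  TP g j * M = M * TP g i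

/-- the centre of the commutant -/
def Ctr (𝔤 : Submodule ℂ (Matrix ι ι ℂ)) : Set (Matrix ι ι ℂ) :=
  {z | (∀ x ∈ 𝔤, z * x = x * z) ∧ ∀ c : Matrix ι ι ℂ, (∀ x ∈ 𝔤, c * x = x * c) → z * c = c * z}

/-- diagonalisable with integral eigenvalues of absolute value at most `Y` -/
def EigInt (Y : ℕ) (z : Matrix ι ι ℂ) : Prop :=
  Polynomial.aeval z (∏ n ∈ Finset.Icc (-(Y : ℤ)) (Y : ℤ),
    (Polynomial.X - Polynomial.C (n : ℂ))) = 0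

/-- the integral central elements which are orthogonal to `𝔤`, of size at most `Y` -/
def Small (𝔤 : Submodule ℂ (Matrix ι ι ℂ)) (Y : ℕ) : Set (Matrix ι ι ℂ) :=
  {z | z ∈ Ctr 𝔤 ∧ (∀ x ∈ 𝔤, (z * x).trace = 0) ∧ EigInt Y z}

/-- the small elements generate over the rational numbers -/
def HL (𝔤 : Submodule ℂ (Matrix ι ι ℂ)) (Y : ℕ) : Prop :=
  ∀ Y' : ℕ, ∀ z ∈ Small 𝔤 Y', z ∈ Submodule.span ℚ (Small 𝔤 Y)

/-- `𝔤` is a Lie algebra -/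
def IsLie (𝔤 : Submodule ℂ (Matrix ι ι ℂ)) : Prop :=
  ∀ x ∈ 𝔤, ∀ y ∈ 𝔤, x * y - y * x ∈ 𝔤

/-- `𝔤` is stable under the adjoint -/
def IsStar (𝔤 : Submodule ℂ (Matrix ι ι ℂ)) : Prop := ∀ x ∈ 𝔤, xᴴ ∈ 𝔤

/-- the conjugate `U 𝔤 U'` -/
def cj (U U' : Matrix ι ι ℂ) (𝔤 : Submodule ℂ (Matrix ι ι ℂ)) : Submodule ℂ (Matrix ι ι ℂ) :=
  𝔤.map (LinearMap.mulLeft ℂ U ∘ₗ LinearMap.mulRight ℂ U')

/-- the real diagonal matrix with given entries -/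
noncomputable def dg (s : ι → ℝ) : Matrix ι ι ℂ := diagonal fun j => (s j : ℂ)

/-- the diagonal matrix with the entries `exp (i s)` -/
noncomputable def edg (s : ι → ℝ) : Matrix ι ι ℂ :=
  diagonal fun j => Complex.exp (Complex.I * s j)

/-- coordinates adapted to a maximal torus of `𝔤` (with the generic element `ρ`) and to the centre
of the commutant -/
structure Adapted (𝔤 : Submodule ℂ (Matrix ι ι ℂ)) (ρ : ι → ℝ) : Prop where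
  star : IsStar 𝔤
  lie : IsLie 𝔤
  mem : dg ρ ∈ 𝔤
  /-- the centraliser of `ρ` consists of diagonal matrices -/
  diag : ∀ y ∈ 𝔤, (∀ i j, y i j ≠ 0 → ρ i = ρ j) → ∀ i j, i ≠ j → y i j = 0
  /-- `ρ` is generic -/
  gen : ∀ s : ι → ℝ, dg s ∈ 𝔤 → ∀ i j k l, ρ i - ρ j = ρ k - ρ l → s i - s j = s k - s l
  ctr : ∀ z ∈ Ctr 𝔤, ∀ i j, i ≠ j → z i j = 0

/-- a simple system: root vectors `e a` and roots `α a` (Riesz duals in the torus) -/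
structure Simple (𝔤 : Submodule ℂ (Matrix ι ι ℂ)) (ρ : ι → ℝ) (r : ℕ)
    (e : Fin r → Matrix ι ι ℂ) (α : Fin r → ι → ℝ) : Prop where
  mem : ∀ a, e a ∈ 𝔤
  pos : ∀ a, 0 < α a ⬝ᵥ ρ
  wt : ∀ a (s : ι → ℝ), dg s ∈ 𝔤 → ∀ i j, e a i j ≠ 0 → s i - s j = α a ⬝ᵥ s
  self : ∀ a, e a * (e a)ᴴ - (e a)ᴴ * e a = dg (α a)
  ne : ∀ a b, a ≠ b → e a * (e b)ᴴ - (e b)ᴴ * e a = 0
  indep : LinearIndependent ℝ α
  /-- the strictly positive part of `𝔤` is generated by the `e a` -/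
  gen : ∀ 𝔫 : Submodule ℂ (Matrix ι ι ℂ), (∀ a, e a ∈ 𝔫) →
    (∀ x ∈ 𝔫, ∀ y ∈ 𝔫, x * y - y * x ∈ 𝔫) →
    ∀ x ∈ 𝔤, (∀ i j, x i j ≠ 0 → ρ j < ρ i) → x ∈ 𝔫
  /-- the root spaces have dimension one -/
  one : ∀ a, ∀ x ∈ 𝔤, (∀ s : ι → ℝ, dg s ∈ 𝔤 → ∀ i j, x i j ≠ 0 → s i - s j = α a ⬝ᵥ s) →
    ∃ c : ℂ, x = c • e a

/-- the antisymmetric tensor of a family of coordinate vectors -/
noncomputable def wdg {k : ℕ} (c : Fin k → ι) : (Fin k → ι) → ℂ :=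
  fun I => (Matrix.of fun r s : Fin k => if I r = c s then (1 : ℂ) else 0).det

/-- there is a nonzero tensor of degree `k` killed by all `e a`, of weight `μ` under the torus, on
which the diagonal matrix `ζ` acts as `c` -/
def HW (𝔤 : Submodule ℂ (Matrix ι ι ℂ)) {r : ℕ} (e : Fin r → Matrix ι ι ℂ) (ζ : ι → ℂ)
    (k : ℕ) (μ : (ι → ℝ) → ℝ) (c : ℂ) : Prop :=
  ∃ ω : (Fin k → ι) → ℂ, ω ≠ 0 ∧ (∀ a, dTP (e a) k *ᵥ ω = 0) ∧
    (∀ s : ι → ℝ, dg s ∈ 𝔤 → dTP (dg s) k *ᵥ ω = ((μ s : ℝ) : ℂ) • ω) ∧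
    TP (diagonal ζ) k *ᵥ ω = c • ω

end Pool.Agent.Q271.ZG
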