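import Mathlib
import Pool.Agent.Q271.ZG.Defs

/-!
# Project ZG: basic lemmas
-/

set_option autoImplicit false
set_option linter.unusedSectionVars false

namespace Pool.Agent.Q271.ZG

open Matrix Pool.Agent.Q60.ED

variable {ι : Type} [Fintype ι] [DecidableEq ι]

/-! ### the matrix `x` at the position `k` -/

/-- the matrix `x` acting on the `k`-th factor -/
def pos {n : ℕ} (k : Fin n) (x : Matrix ι ι ℂ) : Matrix (Fin n → ι) (Fin n → ι) ℂ :=
  Matrix.of fun I J => if ∀ l, l ≠ k → I l = J l then x (I k) (J k) else 0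

theorem pos_apply {n : ℕ} (k : Fin n) (x : Matrix ι ι ℂ) (I J : Fin n → ι) :
    pos k x I J = if ∀ l, l ≠ k → I l = J l then x (I k) (J k) else 0 := rfl

theorem dTP_eq_sum (x : Matrix ι ι ℂ) (n : ℕ) : dTP x n = ∑ k : Fin n, pos k x := by
  ext I J
  rw [Matrix.sum_apply]
  rfl

theorem dTP_apply (x : Matrix ι ι ℂ) (n : ℕ) (I J : Fin n → ι) :
    dTP x n I J = ∑ k, if ∀ l, l ≠ k → I l = J l then x (I k) (J k) else 0 := rfl

theorem sum_update {n : ℕ} (k : Fin n) (J : Fin n → ι) (F : (Fin n → ι) → ℂ) :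
    ∑ L : Fin n → ι, (if ∀ l, l ≠ k → L l = J l then F L else 0) =
      ∑ a, F (Function.update J k a) := by
  rw [← Finset.sum_filter]
  refine Finset.sum_bij' (fun L _ => L k) (fun a _ => Function.update J k a) ?_ ?_ ?_ ?_ ?_
  · intro L _; exact Finset.mem_univ _
  · intro a _
    rw [Finset.mem_filter]
    refine ⟨Finset.mem_univ _, fun l hl => ?_⟩
    rw [Function.update_of_ne hl]
  · intro L hL
    rw [Finset.mem_filter] at hL
    funext l
    by_cases h : l = k
    · subst h; rw [Function.update_self]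
    · rw [Function.update_of_ne h, hL.2 l h]
  · intro a _
    rw [Function.update_self]
  · intro L hL
    rw [Finset.mem_filter] at hL
    congr 1
    funext l
    by_cases h : l = k
    · subst h; rw [Function.update_self]
    · rw [Function.update_of_ne h, hL.2 l h]

theorem sum_update' {n : ℕ} (k : Fin n) (I : Fin n → ι) (F : (Fin n → ι) → ℂ) :
    ∑ L : Fin n → ι, (if ∀ l, l ≠ k → I l = L l then F L else 0) =
      ∑ a, F (Function.update I k a) := by
  rw [← sum_update]
  refine Finset.sum_congr rfl fun L _ => ?_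
  have h : (∀ l, l ≠ k → I l = L l) ↔ (∀ l, l ≠ k → L l = I l) :=
    ⟨fun h l hl => (h l hl).symm, fun h l hl => (h l hl).symm⟩
  simp only [h]

/-- the action of `dTP x n` on tensors -/
theorem dTP_mulVec (x : Matrix ι ι ℂ) {n : ℕ} (t : (Fin n → ι) → ℂ) (I : Fin n → ι) :
    (dTP x n *ᵥ t) I = ∑ k, ∑ a, x (I k) a * t (Function.update I k a) := by
  rw [Matrix.mulVec, dotProduct]
  simp only [dTP_apply, Finset.sum_mul]
  rw [Finset.sum_comm]
  refine Finset.sum_congr rfl fun k _ => ?_
  have h := sum_update' k I (fun L => x (I k) (L k) * t L)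
  simp only [Function.update_self] at h
  rw [← h]
  refine Finset.sum_congr rfl fun L _ => ?_
  split_ifs
  · rfl
  · rw [zero_mul]

theorem pos_add {n : ℕ} (k : Fin n) (x y : Matrix ι ι ℂ) : pos k (x + y) = pos k x + pos k y := by
  ext I J
  rw [Matrix.add_apply, pos_apply, pos_apply, pos_apply]
  split_ifs
  · rfl
  · rw [add_zero]

theorem pos_smul {n : ℕ} (k : Fin n) (c : ℂ) (x : Matrix ι ι ℂ) : pos k (c • x) = c • pos k x := by
  ext I J
  rw [Matrix.smul_apply, pos_apply, pos_apply]
  split_ifs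
  · rfl
  · rw [smul_zero]

theorem pos_one {n : ℕ} (k : Fin n) : pos k (1 : Matrix ι ι ℂ) = 1 := by
  ext I J
  rw [pos_apply]
  by_cases h : I = J
  · subst h
    rw [if_pos fun _ _ => rfl, Matrix.one_apply_eq, Matrix.one_apply_eq]
  · rw [Matrix.one_apply_ne h]
    split_ifs with h1
    · refine Matrix.one_apply_ne fun h2 => h ?_
      funext l
      by_cases hl : l = k
      · subst hl; exact h2
      · exact h1 l hl
    · rfl

theorem pos_mul {n : ℕ} (k : Fin n) (x y : Matrix ι ι ℂ) : pos k (x * y) = pos k x * pos k y := by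
  ext I J
  rw [Matrix.mul_apply]
  have h1 : ∀ L, pos k x I L * pos k y L J =
      if ∀ l, l ≠ k → I l = L l then x (I k) (L k) * pos k y L J else 0 := by
    intro L
    rw [pos_apply k x]
    split_ifs
    · rfl
    · rw [zero_mul]
  simp only [h1]
  rw [sum_update' k I (fun L => x (I k) (L k) * pos k y L J)]
  have h2 : ∀ a, pos k y (Function.update I k a) J =
      if ∀ l, l ≠ k → I l = J l then y a (J k) else 0 := by
    intro a
    rw [pos_apply, Function.update_self]
    have h3 : (∀ l, l ≠ k → Function.update I k a l = J l) ↔ (∀ l, l ≠ k → I l = J l) := by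
      constructor
      · intro h l hl
        rw [← h l hl, Function.update_of_ne hl]
      · intro h l hl
        rw [Function.update_of_ne hl, h l hl]
    simp only [h3]
  simp only [h2, Function.update_self]
  rw [pos_apply]
  split_ifs
  · rw [Matrix.mul_apply]
  · simp

theorem pos_comm {n : ℕ} {k k' : Fin n} (h : k ≠ k') (x y : Matrix ι ι ℂ) :
    pos k x * pos k' y = pos k' y * pos k x := by
  have key : ∀ (k k' : Fin n), k ≠ k' → ∀ (x y : Matrix ι ι ℂ) (I J : Fin n → ι),
      (pos k x * pos k' y) I J =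
        if ∀ l, l ≠ k → l ≠ k' → I l = J l then x (I k) (J k) * y (I k') (J k') else 0 := by
    intro k k' h x y I J
    rw [Matrix.mul_apply]
    have h1 : ∀ L, pos k x I L * pos k' y L J =
        if ∀ l, l ≠ k → I l = L l then x (I k) (L k) * pos k' y L J else 0 := by
      intro L
      rw [pos_apply k x]
      split_ifs
      · rfl
      · rw [zero_mul]
    simp only [h1]
    rw [sum_update' k I (fun L => x (I k) (L k) * pos k' y L J), Finset.sum_eq_single (J k)]
    · rw [Function.update_self, pos_apply, Function.update_of_ne (Ne.symm h)]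
      have h3 : (∀ l, l ≠ k' → Function.update I k (J k) l = J l) ↔
          (∀ l, l ≠ k → l ≠ k' → I l = J l) := by
        constructor
        · intro h l hl hl'
          rw [← h l hl', Function.update_of_ne hl]
        · intro h' l hl'
          by_cases hl : l = k
          · subst hl; rw [Function.update_self]
          · rw [Function.update_of_ne hl, h' l hl hl']
      simp only [h3]
      split_ifs
      · rfl
      · rw [mul_zero]
    · intro a _ ha
      rw [pos_apply k' y, if_neg, mul_zero]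
      intro h2
      apply ha
      rw [← h2 k h, Function.update_self]
    · intro h2; exact absurd (Finset.mem_univ _) h2
  ext I J
  rw [key k k' h, key k' k (Ne.symm h)]
  have h3 : (∀ l, l ≠ k → l ≠ k' → I l = J l) ↔ (∀ l, l ≠ k' → l ≠ k → I l = J l) :=
    ⟨fun h l a b => h l b a, fun h l a b => h l b a⟩
  simp only [h3, mul_comm]

theorem pos_conjTranspose {n : ℕ} (k : Fin n) (x : Matrix ι ι ℂ) : pos k xᴴ = (pos k x)ᴴ := by
  ext I J
  rw [Matrix.conjTranspose_apply, pos_apply, pos_apply]
  have h3 : (∀ l, l ≠ k → I l = J l) ↔ (∀ l, l ≠ k → J l = I l) :=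
    ⟨fun h l hl => (h l hl).symm, fun h l hl => (h l hl).symm⟩
  simp only [h3]
  split_ifs
  · rfl
  · rw [star_zero]

/-- `pos k` as an algebra homomorphism -/
def posA {n : ℕ} (k : Fin n) : Matrix ι ι ℂ →ₐ[ℂ] Matrix (Fin n → ι) (Fin n → ι) ℂ :=
  AlgHom.ofLinearMap
    { toFun := pos k
      map_add' := pos_add k
      map_smul' := pos_smul k } (pos_one k) (pos_mul k)

theorem posA_apply {n : ℕ} (k : Fin n) (x : Matrix ι ι ℂ) : posA k x = pos k x := rfl

/-! ### the linear algebra of `dTP` -/

theorem dTP_add (x y : Matrix ι ι ℂ) (n : ℕ) : dTP (x + y) n = dTP x n + dTP y n := by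
  simp only [dTP_eq_sum, pos_add, Finset.sum_add_distrib]

theorem dTP_smul (c : ℂ) (x : Matrix ι ι ℂ) (n : ℕ) : dTP (c • x) n = c • dTP x n := by
  simp only [dTP_eq_sum, pos_smul, Finset.smul_sum]

/-- `dTP` as a linear map -/
def dTPL (n : ℕ) : Matrix ι ι ℂ →ₗ[ℂ] Matrix (Fin n → ι) (Fin n → ι) ℂ where
  toFun x := dTP x n
  map_add' x y := dTP_add x y n
  map_smul' c x := dTP_smul c x n

theorem dTPL_apply (n : ℕ) (x : Matrix ι ι ℂ) : dTPL n x = dTP x n := rfl

theorem dTP_zero (n : ℕ) : dTP (0 : Matrix ι ι ℂ) n = 0 := (dTPL n).map_zero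

theorem dTP_neg (x : Matrix ι ι ℂ) (n : ℕ) : dTP (-x) n = - dTP x n := (dTPL n).map_neg x

theorem dTP_sub (x y : Matrix ι ι ℂ) (n : ℕ) : dTP (x - y) n = dTP x n - dTP y n :=
  (dTPL n).map_sub x y

theorem dTP_sum {α : Type*} (s : Finset α) (f : α → Matrix ι ι ℂ) (n : ℕ) :
    dTP (∑ i ∈ s, f i) n = ∑ i ∈ s, dTP (f i) n := map_sum (dTPL n) f s

/-- `dTP` is a homomorphism of Lie algebras -/
theorem dTP_comm (x y : Matrix ι ι ℂ) (n : ℕ) :
    dTP (x * y - y * x) n = dTP x n * dTP y n - dTP y n * dTP x n := by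
  simp only [dTP_eq_sum, Finset.sum_mul_sum]
  rw [Finset.sum_comm (f := fun i j => pos i y * pos j x), ← Finset.sum_sub_distrib]
  refine Finset.sum_congr rfl fun k _ => ?_
  rw [← Finset.sum_sub_distrib, Finset.sum_eq_single k]
  · have h : pos k (x * y - y * x) = posA k (x * y - y * x) := rfl
    rw [h, map_sub, map_mul, map_mul]
    rfl
  · intro l _ hl
    rw [pos_comm (Ne.symm hl), sub_self]
  · intro h; exact absurd (Finset.mem_univ _) h

theorem dTP_conjTranspose (x : Matrix ι ι ℂ) (n : ℕ) : dTP xᴴ n = (dTP x n)ᴴ := by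
  simp only [dTP_eq_sum, pos_conjTranspose, Matrix.conjTranspose_sum]

theorem TP_conjTranspose (g : Matrix ι ι ℂ) (n : ℕ) : TP gᴴ n = (TP g n)ᴴ := by
  ext I J
  rw [Matrix.conjTranspose_apply, TP_apply, TP_apply, star_prod]
  rfl

theorem dTP_diagonal (d : ι → ℂ) (n : ℕ) :
    dTP (diagonal d) n = diagonal fun J : Fin n → ι => ∑ k, d (J k) := by
  ext I J
  rw [dTP_apply]
  by_cases h : I = J
  · subst h
    rw [Matrix.diagonal_apply_eq]
    refine Finset.sum_congr rfl fun k _ => ?_
    rw [if_pos fun _ _ => rfl, Matrix.diagonal_apply_eq]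
  · rw [Matrix.diagonal_apply_ne _ h]
    refine Finset.sum_eq_zero fun k _ => ?_
    split_ifs with h1
    · refine Matrix.diagonal_apply_ne _ fun h2 => h ?_
      funext l
      by_cases hl : l = k
      · subst hl; exact h2
      · exact h1 l hl
    · rfl

theorem TP_diagonal (d : ι → ℂ) (n : ℕ) :
    TP (diagonal d) n = diagonal fun J : Fin n → ι => ∏ k, d (J k) := by
  ext I J
  rw [TP_apply]
  by_cases h : I = J
  · subst h
    rw [Matrix.diagonal_apply_eq]
    exact Finset.prod_congr rfl fun k _ => Matrix.diagonal_apply_eq _ _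
  · rw [Matrix.diagonal_apply_ne _ h]
    obtain ⟨k, hk⟩ : ∃ k, I k ≠ J k := by
      by_contra hall
      push Not at hall
      exact h (funext hall)
    exact Finset.prod_eq_zero (Finset.mem_univ k) (Matrix.diagonal_apply_ne _ hk)

theorem TP_mul_pos {n : ℕ} (g x : Matrix ι ι ℂ) (k : Fin n) (I J : Fin n → ι) :
    (TP g n * pos k x) I J = (∏ l ∈ Finset.univ.erase k, g (I l) (J l)) * (g * x) (I k) (J k) := by
  rw [Matrix.mul_apply]
  have h1 : ∀ L, TP g n I L * pos k x L J =
      if ∀ l, l ≠ k → L l = J l then TP g n I L * x (L k) (J k) else 0 := by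
    intro L
    rw [pos_apply]
    split_ifs
    · rfl
    · rw [mul_zero]
  simp only [h1]
  rw [sum_update k J (fun L => TP g n I L * x (L k) (J k)), Matrix.mul_apply, Finset.mul_sum]
  refine Finset.sum_congr rfl fun a _ => ?_
  rw [TP_apply, ← Finset.mul_prod_erase _ _ (Finset.mem_univ k), Function.update_self]
  have h2 : ∏ l ∈ Finset.univ.erase k, g (I l) (Function.update J k a l) =
      ∏ l ∈ Finset.univ.erase k, g (I l) (J l) :=
    Finset.prod_congr rfl fun l hl => by rw [Function.update_of_ne (Finset.ne_of_mem_erase hl)]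
  rw [h2]
  ring

theorem pos_mul_TP {n : ℕ} (g x : Matrix ι ι ℂ) (k : Fin n) (I J : Fin n → ι) :
    (pos k x * TP g n) I J = (∏ l ∈ Finset.univ.erase k, g (I l) (J l)) * (x * g) (I k) (J k) := by
  rw [Matrix.mul_apply]
  have h1 : ∀ L, pos k x I L * TP g n L J =
      if ∀ l, l ≠ k → I l = L l then x (I k) (L k) * TP g n L J else 0 := by
    intro L
    rw [pos_apply]
    split_ifs
    · rfl
    · rw [zero_mul]
  simp only [h1]
  rw [sum_update' k I (fun L => x (I k) (L k) * TP g n L J), Matrix.mul_apply, Finset.mul_sum]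
  refine Finset.sum_congr rfl fun a _ => ?_
  rw [TP_apply, ← Finset.mul_prod_erase _ _ (Finset.mem_univ k), Function.update_self]
  have h2 : ∏ l ∈ Finset.univ.erase k, g (Function.update I k a l) (J l) =
      ∏ l ∈ Finset.univ.erase k, g (I l) (J l) :=
    Finset.prod_congr rfl fun l hl => by rw [Function.update_of_ne (Finset.ne_of_mem_erase hl)]
  rw [h2]
  ring

/-- conjugation -/
theorem TP_mul_dTP {g g' : Matrix ι ι ℂ} (h' : g' * g = 1) (x : Matrix ι ι ℂ) (n : ℕ) :
    TP g n * dTP x n = dTP (g * x * g') n * TP g n := by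
  rw [dTP_eq_sum, dTP_eq_sum, Finset.mul_sum, Finset.sum_mul]
  refine Finset.sum_congr rfl fun k _ => ?_
  ext I J
  rw [TP_mul_pos, pos_mul_TP, Matrix.mul_assoc (g * x), h', Matrix.mul_one]

theorem TP_inv {g g' : Matrix ι ι ℂ} (h : g * g' = 1) (n : ℕ) : TP g n * TP g' n = 1 := by
  rw [← TP_mul, h, TP_one]

/-! ### exponentials -/

theorem prod_pos {n : ℕ} (g : Matrix ι ι ℂ) (s : Finset (Fin n))
    (h : (s : Set (Fin n)).Pairwise (Function.onFun Commute fun k => pos k g)) :
    s.noncommProd (fun k => pos k g) h =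
      Matrix.of fun I J : Fin n → ι => if ∀ l, l ∉ s → I l = J l then ∏ k ∈ s, g (I k) (J k) else 0 := by
  induction s using Finset.induction_on with
  | empty =>
    rw [Finset.noncommProd_empty]
    ext I J
    rw [Matrix.of_apply, Finset.prod_empty, Matrix.one_apply]
    have h1 : (∀ l, l ∉ (∅ : Finset (Fin n)) → I l = J l) ↔ I = J :=
      ⟨fun h => funext fun l => h l (by simp), fun h l _ => by rw [h]⟩
    simp only [h1]
  | insert a s ha ih =>
    rw [Finset.noncommProd_insert_of_notMem _ _ _ _ ha, ih]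
    ext I J
    rw [Matrix.mul_apply, Matrix.of_apply]
    have h1 : ∀ L, pos a g I L * (Matrix.of fun I J : Fin n → ι =>
        if ∀ l, l ∉ s → I l = J l then ∏ k ∈ s, g (I k) (J k) else 0) L J =
        if ∀ l, l ≠ a → I l = L l then g (I a) (L a) *
          (if ∀ l, l ∉ s → L l = J l then ∏ k ∈ s, g (L k) (J k) else 0) else 0 := by
      intro L
      rw [pos_apply, Matrix.of_apply]
      split_ifs
      · rfl
      · rw [mul_zero]
      · rw [zero_mul]
      · rw [zero_mul]
    simp only [h1]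
    rw [sum_update' a I (fun L => g (I a) (L a) *
      (if ∀ l, l ∉ s → L l = J l then ∏ k ∈ s, g (L k) (J k) else 0)), Finset.sum_eq_single (J a)]
    · rw [Function.update_self]
      have h2 : (∀ l, l ∉ s → Function.update I a (J a) l = J l) ↔
          (∀ l, l ∉ insert a s → I l = J l) := by
        constructor
        · intro h3 l hl
          rw [Finset.mem_insert, not_or] at hl
          rw [← h3 l hl.2, Function.update_of_ne hl.1]
        · intro h3 l hl
          by_cases hla : l = a
          · subst hla; rw [Function.update_self]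
          · rw [Function.update_of_ne hla, h3 l (by rw [Finset.mem_insert, not_or]; exact ⟨hla, hl⟩)]
      simp only [h2]
      rw [Finset.prod_insert ha]
      have h3 : ∏ k ∈ s, g (Function.update I a (J a) k) (J k) = ∏ k ∈ s, g (I k) (J k) :=
        Finset.prod_congr rfl fun k hk => by
          rw [Function.update_of_ne]
          rintro rfl
          exact ha hk
      rw [h3]
      split_ifs
      · rfl
      · rw [mul_zero]
    · intro b _ hb
      rw [if_neg, mul_zero]
      intro h3
      apply hb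
      rw [← h3 a ha, Function.update_self]
    · intro h3; exact absurd (Finset.mem_univ _) h3

theorem pos_exp {n : ℕ} (k : Fin n) (x : Matrix ι ι ℂ) :
    pos k (NormedSpace.exp x) = NormedSpace.exp (pos k x) := by
  have hc : Continuous (posA (ι := ι) k) :=
    LinearMap.continuous_of_finiteDimensional (posA (ι := ι) k).toLinearMap
  open scoped Matrix.Norms.Operator in
  exact NormedSpace.map_exp (posA (ι := ι) k) hc x

theorem TP_exp (x : Matrix ι ι ℂ) (n : ℕ) :
    TP (NormedSpace.exp x) n = NormedSpace.exp (dTP x n) := by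
  have hcomm : ∀ g : Matrix ι ι ℂ, ((Finset.univ : Finset (Fin n)) : Set (Fin n)).Pairwise
      (Function.onFun Commute fun k => pos k g) := fun g k _ k' _ hkk' => pos_comm hkk' g g
  rw [dTP_eq_sum, Matrix.exp_sum_of_commute _ _ (hcomm x)]
  have h1 := prod_pos (NormedSpace.exp x) Finset.univ (hcomm _)
  have h2 : (Matrix.of fun I J : Fin n → ι => if ∀ l, l ∉ (Finset.univ : Finset (Fin n)) → I l = J l
      then ∏ k ∈ Finset.univ, (NormedSpace.exp x) (I k) (J k) else 0) = TP (NormedSpace.exp x) n := by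
    ext I J
    rw [Matrix.of_apply, if_pos fun l hl => absurd (Finset.mem_univ l) hl, TP_apply]
  rw [← h2, ← h1]
  refine Finset.noncommProd_congr rfl (fun k _ => pos_exp k x) _

/-! ### tensor products -/

theorem TP_tmul (g : Matrix ι ι ℂ) {m n : ℕ} (s : (Fin m → ι) → ℂ) (t : (Fin n → ι) → ℂ) :
    TP g (m + n) *ᵥ tmul s t = tmul (TP g m *ᵥ s) (TP g n *ᵥ t) := by
  funext I
  rw [Matrix.mulVec, dotProduct, sum_append, tmul, Matrix.mulVec, dotProduct, Matrix.mulVec,
    dotProduct, Finset.sum_mul_sum]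
  refine Finset.sum_congr rfl fun J _ => Finset.sum_congr rfl fun J' _ => ?_
  rw [TP_apply, Fin.prod_univ_add, TP_apply, TP_apply, tmul]
  simp only [Fin.append_left, Fin.append_right]
  ring

theorem dTP_tmul (x : Matrix ι ι ℂ) {m n : ℕ} (s : (Fin m → ι) → ℂ) (t : (Fin n → ι) → ℂ) :
    dTP x (m + n) *ᵥ tmul s t = tmul (dTP x m *ᵥ s) t + tmul s (dTP x n *ᵥ t) := by
  funext I
  rw [dTP_mulVec, Fin.sum_univ_add, Pi.add_apply, tmul, tmul, dTP_mulVec, dTP_mulVec,
    Finset.sum_mul, Finset.mul_sum]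
  congr 1
  · refine Finset.sum_congr rfl fun k _ => ?_
    rw [Finset.sum_mul]
    refine Finset.sum_congr rfl fun a _ => ?_
    rw [tmul]
    have h1 : (fun l => Function.update I (Fin.castAdd n k) a (Fin.castAdd n l)) =
        Function.update (fun l => I (Fin.castAdd n l)) k a := by
      funext l
      by_cases hl : l = k
      · subst hl; rw [Function.update_self, Function.update_self]
      · rw [Function.update_of_ne hl, Function.update_of_ne]
        intro h
        exact hl (Fin.castAdd_injective m n h)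
    have h2 : (fun l => Function.update I (Fin.castAdd n k) a (Fin.natAdd m l)) =
        fun l => I (Fin.natAdd m l) := by
      funext l
      rw [Function.update_of_ne]
      intro h
      have := congrArg Fin.val h
      simp only [Fin.val_natAdd, Fin.val_castAdd] at this
      omega
    rw [h1, h2]
    ring
  · refine Finset.sum_congr rfl fun k _ => ?_
    rw [Finset.mul_sum]
    refine Finset.sum_congr rfl fun a _ => ?_
    rw [tmul]
    have h1 : (fun l => Function.update I (Fin.natAdd m k) a (Fin.natAdd m l)) =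
        Function.update (fun l => I (Fin.natAdd m l)) k a := by
      funext l
      by_cases hl : l = k
      · subst hl; rw [Function.update_self, Function.update_self]
      · rw [Function.update_of_ne hl, Function.update_of_ne]
        intro h
        exact hl (Fin.natAdd_injective n m h)
    have h2 : (fun l => Function.update I (Fin.natAdd m k) a (Fin.castAdd n l)) =
        fun l => I (Fin.castAdd n l) := by
      funext l
      rw [Function.update_of_ne]
      intro h
      have := congrArg Fin.val h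
      simp only [Fin.val_natAdd, Fin.val_castAdd] at this
      omega
    rw [h1, h2]
    ring

/-! ### conjugates -/

theorem mem_cj {U U' : Matrix ι ι ℂ} {𝔤 : Submodule ℂ (Matrix ι ι ℂ)} {x : Matrix ι ι ℂ} :
    x ∈ cj U U' 𝔤 ↔ ∃ y ∈ 𝔤, U * y * U' = x := by
  rw [cj, Submodule.mem_map]
  simp only [LinearMap.comp_apply, LinearMap.mulLeft_apply, LinearMap.mulRight_apply,
    Matrix.mul_assoc]

/-! ### the grading by a diagonal element -/

theorem grade_mem {𝔤 : Submodule ℂ (Matrix ι ι ℂ)} {d : ι → ℂ}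
    (h : ∀ y ∈ 𝔤, diagonal d * y - y * diagonal d ∈ 𝔤) (f : ℂ → ℂ) {y : Matrix ι ι ℂ}
    (hy : y ∈ 𝔤) : (Matrix.of fun i j => f (d i - d j) * y i j) ∈ 𝔤 := by
  classical
  -- polynomials
  have key : ∀ q : Polynomial ℂ, ∀ y ∈ 𝔤, (Matrix.of fun i j => q.eval (d i - d j) * y i j) ∈ 𝔤 := by
    intro q
    induction q using Polynomial.induction_on' with
    | add p q hp hq =>
      intro y hy
      have h1 : (Matrix.of fun i j => (p + q).eval (d i - d j) * y i j) =
          (Matrix.of fun i j => p.eval (d i - d j) * y i j) +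
            Matrix.of fun i j => q.eval (d i - d j) * y i j := by
        ext i j
        rw [Matrix.add_apply, Matrix.of_apply, Matrix.of_apply, Matrix.of_apply,
          Polynomial.eval_add, add_mul]
      rw [h1]
      exact 𝔤.add_mem (hp y hy) (hq y hy)
    | monomial n c =>
      induction n with
      | zero =>
        intro y hy
        have h1 : (Matrix.of fun i j => (Polynomial.monomial 0 c).eval (d i - d j) * y i j) =
            c • y := by
          ext i j
          rw [Matrix.of_apply, Matrix.smul_apply, Polynomial.eval_monomial, pow_zero, mul_one,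
            smul_eq_mul]
        rw [h1]
        exact 𝔤.smul_mem _ hy
      | succ n ih =>
        intro y hy
        have h1 := ih _ (h y hy)
        have h2 : (Matrix.of fun i j => (Polynomial.monomial n c).eval (d i - d j) *
            (diagonal d * y - y * diagonal d) i j) =
            (Matrix.of fun i j => (Polynomial.monomial (n + 1) c).eval (d i - d j) * y i j) := by
          ext i j
          rw [Matrix.of_apply, Matrix.of_apply, Matrix.sub_apply, Matrix.diagonal_mul,
            Matrix.mul_diagonal, Polynomial.eval_monomial, Polynomial.eval_monomial, pow_succ]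
          ring
        rwa [h2] at h1
  let A : Finset ℂ := Finset.univ.image fun p : ι × ι => d p.1 - d p.2
  have h1 := key (Lagrange.interpolate A id f) y hy
  have h2 : ∀ i j, (Lagrange.interpolate A id f).eval (d i - d j) = f (d i - d j) := by
    intro i j
    have hm : d i - d j ∈ A := Finset.mem_image.2 ⟨(i, j), Finset.mem_univ _, rfl⟩
    have := Lagrange.eval_interpolate_at_node (s := A) (v := id) f Function.injective_id.injOn hm
    simpa using this
  simp only [h2] at h1
  exact h1

namespace Adapted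

variable {𝔤 : Submodule ℂ (Matrix ι ι ℂ)} {ρ : ι → ℝ}

/-- the parts of the elements of `𝔤` defined by a condition on `ρ i - ρ j` are in `𝔤` -/
theorem part_mem (h : Adapted 𝔤 ρ) (p : ℝ → Prop) [DecidablePred p] {x : Matrix ι ι ℂ}
    (hx : x ∈ 𝔤) : (Matrix.of fun i j => if p (ρ i - ρ j) then x i j else 0) ∈ 𝔤 := by
  classical
  have h1 := grade_mem (𝔤 := 𝔤) (d := fun j => (ρ j : ℂ))
    (fun y hy => h.lie _ h.mem y hy) (fun c => if p c.re then 1 else 0) hx
  have h2 : (Matrix.of fun i j => (if p (((ρ i : ℂ) - (ρ j : ℂ)).re) then (1 : ℂ) else 0) * x i j) =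
      Matrix.of fun i j => if p (ρ i - ρ j) then x i j else 0 := by
    ext i j
    rw [Matrix.of_apply, Matrix.of_apply, ← Complex.ofReal_sub, Complex.ofReal_re]
    split_ifs
    · rw [one_mul]
    · rw [zero_mul]
  rw [← h2]
  exact h1

/-- the decomposition into strictly positive, strictly negative and diagonal parts -/
theorem split (h : Adapted 𝔤 ρ) {x : Matrix ι ι ℂ} (hx : x ∈ 𝔤) :
    ∃ a ∈ 𝔤, ∃ b ∈ 𝔤, ∃ c ∈ 𝔤, (∀ i j, a i j ≠ 0 → ρ j < ρ i) ∧ (∀ i j, b i j ≠ 0 → ρ i < ρ j) ∧
      (∀ i j, i ≠ j → c i j = 0) ∧ x = a + b + c := by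
  classical
  refine ⟨_, h.part_mem (fun t => 0 < t) hx, _, h.part_mem (fun t => t < 0) hx, _,
    h.part_mem (fun t => t = 0) hx, ?_, ?_, ?_, ?_⟩
  · intro i j hij
    rw [Matrix.of_apply] at hij
    by_contra hle
    exact hij (if_neg fun h1 => hle (by linarith))
  · intro i j hij
    rw [Matrix.of_apply] at hij
    by_contra hle
    exact hij (if_neg fun h1 => hle (by linarith))
  · refine h.diag _ (h.part_mem (fun t => t = 0) hx) ?_
    intro i j hij
    rw [Matrix.of_apply] at hij
    by_contra hle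
    exact hij (if_neg fun h1 => hle (by linarith))
  · ext i j
    rw [Matrix.add_apply, Matrix.add_apply, Matrix.of_apply, Matrix.of_apply, Matrix.of_apply]
    rcases lt_trichotomy (ρ i - ρ j) 0 with h1 | h1 | h1
    · rw [if_neg (by linarith), if_pos h1, if_neg (by linarith)]; ring
    · rw [if_neg (by linarith), if_neg (by linarith), if_pos h1]; ring
    · rw [if_pos h1, if_neg (by linarith), if_neg (by linarith)]; ring

theorem eq_of (h : Adapted 𝔤 ρ) {s : ι → ℝ} (hs : dg s ∈ 𝔤) {i j : ι} (hij : ρ i = ρ j) :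
    s i = s j := by
  have h1 := h.gen s hs i j i i (by rw [hij])
  linarith

/-- the real and imaginary parts of the diagonal elements -/
theorem re_im (h : Adapted 𝔤 ρ) {c : Matrix ι ι ℂ} (hc : c ∈ 𝔤) (hd : ∀ i j, i ≠ j → c i j = 0) :
    ∃ s s' : ι → ℝ, dg s ∈ 𝔤 ∧ dg s' ∈ 𝔤 ∧ c = dg s + Complex.I • dg s' ∧
      (∀ j, s j = (c j j).re) ∧ ∀ j, s' j = (c j j).im := by
  have h1 : dg (fun j => (c j j).re) = (1 / 2 : ℂ) • (c + cᴴ) := by
    ext i j
    rw [Matrix.smul_apply, Matrix.add_apply, Matrix.conjTranspose_apply, dg]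
    by_cases hij : i = j
    · subst hij
      rw [Matrix.diagonal_apply_eq]
      apply Complex.ext
      · simp
        ring
      · simp
    · rw [Matrix.diagonal_apply_ne _ hij, hd i j hij, hd j i (Ne.symm hij)]
      simp
  have h2 : dg (fun j => (c j j).im) = (-(Complex.I / 2)) • (c - cᴴ) := by
    ext i j
    rw [Matrix.smul_apply, Matrix.sub_apply, Matrix.conjTranspose_apply, dg]
    by_cases hij : i = j
    · subst hij
      rw [Matrix.diagonal_apply_eq]
      apply Complex.ext <;> simp <;> ring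
    · rw [Matrix.diagonal_apply_ne _ hij, hd i j hij, hd j i (Ne.symm hij)]
      simp
  refine ⟨fun j => (c j j).re, fun j => (c j j).im, ?_, ?_, ?_, fun _ => rfl, fun _ => rfl⟩
  · rw [h1]; exact 𝔤.smul_mem _ (𝔤.add_mem hc (h.star c hc))
  · rw [h2]; exact 𝔤.smul_mem _ (𝔤.sub_mem hc (h.star c hc))
  · ext i j
    rw [Matrix.add_apply, Matrix.smul_apply, dg, dg]
    by_cases hij : i = j
    · subst hij
      rw [Matrix.diagonal_apply_eq, Matrix.diagonal_apply_eq, smul_eq_mul, mul_comm]
      exact (Complex.re_add_im _).symm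
    · rw [Matrix.diagonal_apply_ne _ hij, Matrix.diagonal_apply_ne _ hij, hd i j hij]
      simp

end Adapted

/-! ### the centre of the commutant -/

section Ctr

variable {𝔤 : Submodule ℂ (Matrix ι ι ℂ)}

theorem Ctr_add {z w : Matrix ι ι ℂ} (hz : z ∈ Ctr 𝔤) (hw : w ∈ Ctr 𝔤) : z + w ∈ Ctr 𝔤 :=
  ⟨fun x hx => by rw [add_mul, mul_add, hz.1 x hx, hw.1 x hx],
    fun c hc => by rw [add_mul, mul_add, hz.2 c hc, hw.2 c hc]⟩

theorem Ctr_smul (a : ℂ) {z : Matrix ι ι ℂ} (hz : z ∈ Ctr 𝔤) : a • z ∈ Ctr 𝔤 :=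
  ⟨fun x hx => by rw [smul_mul_assoc, mul_smul_comm, hz.1 x hx],
    fun c hc => by rw [smul_mul_assoc, mul_smul_comm, hz.2 c hc]⟩

theorem Ctr_one : (1 : Matrix ι ι ℂ) ∈ Ctr 𝔤 :=
  ⟨fun x _ => by rw [one_mul, mul_one], fun c _ => by rw [one_mul, mul_one]⟩

theorem Ctr_zero : (0 : Matrix ι ι ℂ) ∈ Ctr 𝔤 :=
  ⟨fun x _ => by rw [zero_mul, mul_zero], fun c _ => by rw [zero_mul, mul_zero]⟩

theorem Ctr_mul {z w : Matrix ι ι ℂ} (hz : z ∈ Ctr 𝔤) (hw : w ∈ Ctr 𝔤) : z * w ∈ Ctr 𝔤 :=
  ⟨fun x hx => by rw [mul_assoc, hw.1 x hx, ← mul_assoc, hz.1 x hx, mul_assoc],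
    fun c hc => by rw [mul_assoc, hw.2 c hc, ← mul_assoc, hz.2 c hc, mul_assoc]⟩

theorem Ctr_sum {α : Type*} (s : Finset α) {f : α → Matrix ι ι ℂ} (h : ∀ i ∈ s, f i ∈ Ctr 𝔤) :
    ∑ i ∈ s, f i ∈ Ctr 𝔤 := by
  classical
  induction s using Finset.induction_on with
  | empty => rw [Finset.sum_empty]; exact Ctr_zero
  | insert a s ha ih =>
    rw [Finset.sum_insert ha]
    exact Ctr_add (h a (Finset.mem_insert_self _ _)) (ih fun i hi => h i (Finset.mem_insert_of_mem hi))

theorem Ctr_star (hs : IsStar 𝔤) {z : Matrix ι ι ℂ} (hz : z ∈ Ctr 𝔤) : zᴴ ∈ Ctr 𝔤 := by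
  constructor
  · intro x hx
    have h1 := congrArg conjTranspose (hz.1 xᴴ (hs x hx))
    rw [conjTranspose_mul, conjTranspose_mul, conjTranspose_conjTranspose] at h1
    exact h1.symm
  · intro c hc
    have h2 : ∀ x ∈ 𝔤, cᴴ * x = x * cᴴ := by
      intro x hx
      have h1 := congrArg conjTranspose (hc xᴴ (hs x hx))
      rw [conjTranspose_mul, conjTranspose_mul, conjTranspose_conjTranspose] at h1
      exact h1.symm
    have h1 := congrArg conjTranspose (hz.2 cᴴ h2)
    rw [conjTranspose_mul, conjTranspose_mul, conjTranspose_conjTranspose] at h1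
    exact h1.symm

/-- diagonal matrices with entries constant on the classes are in `Ctr 𝔤` -/
theorem Ctr_diagonal (hd : ∀ z ∈ Ctr 𝔤, ∀ i j, i ≠ j → z i j = 0) (f : ι → ℂ)
    (hf : ∀ j k, (∀ z ∈ Ctr 𝔤, z j j = z k k) → f j = f k) : diagonal f ∈ Ctr 𝔤 := by
  classical
  have hdi : ∀ z ∈ Ctr 𝔤, z = diagonal fun j => z j j := by
    intro z hz
    ext i j
    by_cases hij : i = j
    · subst hij; rw [Matrix.diagonal_apply_eq]
    · rw [Matrix.diagonal_apply_ne _ hij, hd z hz i j hij]
  -- indicator of a class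
  have hind : ∀ j₀ : ι, diagonal (fun j => if ∀ z ∈ Ctr 𝔤, z j₀ j₀ = z j j then (1 : ℂ) else 0) ∈
      Ctr 𝔤 := by
    intro j₀
    have key : ∀ S : Finset ι, (∀ k ∈ S, ¬ ∀ z ∈ Ctr 𝔤, z j₀ j₀ = z k k) →
        ∃ w ∈ Ctr 𝔤, w j₀ j₀ = 1 ∧ ∀ k ∈ S, w k k = 0 := by
      intro S
      induction S using Finset.induction_on with
      | empty => intro _; exact ⟨1, Ctr_one, Matrix.one_apply_eq _, fun k hk => absurd hk (by simp)⟩
      | insert a S ha ih =>
        intro hS
        obtain ⟨w, hw, hw1, hw0⟩ := ih fun k hk => hS k (Finset.mem_insert_of_mem hk)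
        have h1 := hS a (Finset.mem_insert_self _ _)
        push Not at h1
        obtain ⟨z, hz, hza⟩ := h1
        have h2 : (z j₀ j₀ - z a a)⁻¹ • (z + (- z a a) • (1 : Matrix ι ι ℂ)) ∈ Ctr 𝔤 :=
          Ctr_smul _ (Ctr_add hz (Ctr_smul _ Ctr_one))
        set v := (z j₀ j₀ - z a a)⁻¹ • (z + (- z a a) • (1 : Matrix ι ι ℂ)) with hv
        have hvk : ∀ k, v k k = (z j₀ j₀ - z a a)⁻¹ * (z k k - z a a) := by
          intro k
          rw [hv, Matrix.smul_apply, Matrix.add_apply, Matrix.smul_apply, Matrix.one_apply_eq]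
          simp only [smul_eq_mul]
          ring
        have hwv : ∀ k, (w * v) k k = w k k * v k k := by
          intro k
          rw [hdi w hw, hdi v h2, Matrix.diagonal_mul_diagonal, Matrix.diagonal_apply_eq,
            Matrix.diagonal_apply_eq, Matrix.diagonal_apply_eq]
        refine ⟨w * v, Ctr_mul hw h2, ?_, ?_⟩
        · rw [hwv, hw1, hvk, one_mul, inv_mul_cancel₀ (sub_ne_zero.2 hza)]
        · intro k hk
          rw [hwv]
          rcases Finset.mem_insert.1 hk with rfl | hk
          · rw [hvk, sub_self, mul_zero, mul_zero]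
          · rw [hw0 k hk, zero_mul]
    obtain ⟨w, hw, hw1, hw0⟩ := key (Finset.univ.filter fun k => ¬ ∀ z ∈ Ctr 𝔤, z j₀ j₀ = z k k)
      fun k hk => (Finset.mem_filter.1 hk).2
    have h3 : diagonal (fun j => if ∀ z ∈ Ctr 𝔤, z j₀ j₀ = z j j then (1 : ℂ) else 0) = w := by
      rw [hdi w hw]
      congr 1
      funext j
      split_ifs with h
      · rw [← h w hw, hw1]
      · rw [hw0 j (Finset.mem_filter.2 ⟨Finset.mem_univ _, h⟩)]
    rw [h3]
    exact hw
  -- the general case
  have h4 : diagonal f = ∑ j₀, (f j₀ / (Finset.univ.filter fun j => ∀ z ∈ Ctr 𝔤, z j₀ j₀ = z j j).card) •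
      diagonal (fun j => if ∀ z ∈ Ctr 𝔤, z j₀ j₀ = z j j then (1 : ℂ) else 0) := by
    ext i j
    rw [Matrix.sum_apply]
    by_cases hij : i = j
    · subst hij
      rw [Matrix.diagonal_apply_eq]
      simp only [Matrix.smul_apply, Matrix.diagonal_apply_eq, smul_eq_mul, mul_ite, mul_one, mul_zero]
      rw [← Finset.sum_filter]
      have h5 : ∀ j₀ ∈ Finset.univ.filter (fun j₀ => ∀ z ∈ Ctr 𝔤, z j₀ j₀ = z i i),
          f j₀ / ((Finset.univ.filter fun j => ∀ z ∈ Ctr 𝔤, z j₀ j₀ = z j j).card : ℂ) =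
          f i / ((Finset.univ.filter fun j₀ => ∀ z ∈ Ctr 𝔤, z j₀ j₀ = z i i).card : ℂ) := by
        intro j₀ hj₀
        have h6 := (Finset.mem_filter.1 hj₀).2
        rw [hf j₀ i h6]
        congr 3
        ext k
        rw [Finset.mem_filter, Finset.mem_filter]
        constructor
        · rintro ⟨_, h7⟩
          exact ⟨Finset.mem_univ _, fun z hz => by rw [← h7 z hz, h6 z hz]⟩
        · rintro ⟨_, h7⟩
          exact ⟨Finset.mem_univ _, fun z hz => by rw [h7 z hz, h6 z hz]⟩
      rw [Finset.sum_congr rfl h5, Finset.sum_const, nsmul_eq_mul]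
      have h8 : ((Finset.univ.filter fun j₀ => ∀ z ∈ Ctr 𝔤, z j₀ j₀ = z i i).card : ℂ) ≠ 0 := by
        rw [Nat.cast_ne_zero]
        exact (Finset.card_pos.2 ⟨i, Finset.mem_filter.2 ⟨Finset.mem_univ _, fun _ _ => rfl⟩⟩).ne'
      field_simp
    · rw [Matrix.diagonal_apply_ne _ hij]
      symm
      refine Finset.sum_eq_zero fun k _ => ?_
      rw [Matrix.smul_apply, Matrix.diagonal_apply_ne _ hij, smul_zero]
  rw [h4]
  exact Ctr_sum _ fun j₀ _ => Ctr_smul _ (hind j₀)

end Ctr

end Pool.Agent.Q271.ZG
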