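import Mathlib
import Pool.Agent.Q271.ZG.Basic

/-!
# Project ZG: change of coordinates
-/

set_option autoImplicit false
set_option linter.unusedSectionVars false

namespace Pool.Agent.Q271.ZG

open Matrix Pool.Agent.Q60.ED

variable {ι : Type} [Fintype ι] [DecidableEq ι] {𝔤 : Submodule ℂ (Matrix ι ι ℂ)}
  {U U' : Matrix ι ι ℂ}

theorem inv_swap (h : U * U' = 1) : U' * U = 1 := mul_eq_one_comm.1 h

theorem mem_cj' (h : U * U' = 1) {x : Matrix ι ι ℂ} : x ∈ cj U U' 𝔤 ↔ U' * x * U ∈ 𝔤 := by
  have h' := inv_swap h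
  rw [mem_cj]
  constructor
  · rintro ⟨y, hy, rfl⟩
    have : U' * (U * y * U') * U = (U' * U) * y * (U' * U) := by simp only [Matrix.mul_assoc]
    rw [this, h', Matrix.one_mul, Matrix.mul_one]
    exact hy
  · intro hx
    refine ⟨_, hx, ?_⟩
    have : U * (U' * x * U) * U' = (U * U') * x * (U * U') := by simp only [Matrix.mul_assoc]
    rw [this, h, Matrix.one_mul, Matrix.mul_one]

theorem cj_mem (_ : U * U' = 1) {x : Matrix ι ι ℂ} (hx : x ∈ 𝔤) : U * x * U' ∈ cj U U' 𝔤 :=
  mem_cj.2 ⟨x, hx, rfl⟩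

theorem cj_lie (h : U * U' = 1) (hl : IsLie 𝔤) : IsLie (cj U U' 𝔤) := by
  have h' := inv_swap h
  intro x' hx' y' hy'
  obtain ⟨x, hx, rfl⟩ := mem_cj.1 hx'
  obtain ⟨y, hy, rfl⟩ := mem_cj.1 hy'
  refine mem_cj.2 ⟨_, hl x hx y hy, ?_⟩
  have e : ∀ a b : Matrix ι ι ℂ, U * a * U' * (U * b * U') = U * (a * b) * U' := by
    intro a b
    calc U * a * U' * (U * b * U') = U * a * (U' * U) * b * U' := by simp only [Matrix.mul_assoc]
      _ = U * (a * b) * U' := by rw [h', Matrix.mul_one, Matrix.mul_assoc U]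
  rw [e, e, Matrix.mul_sub, Matrix.sub_mul]

theorem cj_star (h : U * Uᴴ = 1) (hs : IsStar 𝔤) : IsStar (cj U Uᴴ 𝔤) := by
  intro x' hx'
  obtain ⟨x, hx, rfl⟩ := mem_cj.1 hx'
  refine mem_cj.2 ⟨_, hs x hx, ?_⟩
  rw [conjTranspose_mul, conjTranspose_mul, conjTranspose_conjTranspose, Matrix.mul_assoc]

theorem cj_mul (h : U * U' = 1) (a b : Matrix ι ι ℂ) :
    U * a * U' * (U * b * U') = U * (a * b) * U' := by
  calc U * a * U' * (U * b * U') = U * a * (U' * U) * b * U' := by simp only [Matrix.mul_assoc]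
    _ = U * (a * b) * U' := by rw [inv_swap h, Matrix.mul_one, Matrix.mul_assoc U]

/-- intertwiners in new coordinates -/
theorem tw_cj (h : U * U' = 1) {i j : ℕ} {M : Matrix (Fin j → ι) (Fin i → ι) ℂ} :
    Tw (cj U U' 𝔤) i j M ↔ Tw 𝔤 i j (TP U' j * M * TP U i) := by
  have h' := inv_swap h
  have hU : ∀ n, TP U n * TP U' n = 1 := TP_inv h
  have hU' : ∀ n, TP U' n * TP U n = 1 := TP_inv h'
  -- conjugation of the derivations
  have hd : ∀ (x : Matrix ι ι ℂ) n, dTP x n * TP U' n = TP U' n * dTP (U * x * U') n := by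
    intro x n
    have h1 := TP_mul_dTP (g := U) (g' := U') h' x n
    calc dTP x n * TP U' n = (TP U' n * TP U n) * dTP x n * TP U' n := by rw [hU', Matrix.one_mul]
      _ = TP U' n * (TP U n * dTP x n) * TP U' n := by simp only [Matrix.mul_assoc]
      _ = TP U' n * dTP (U * x * U') n * (TP U n * TP U' n) := by
        rw [h1]; simp only [Matrix.mul_assoc]
      _ = _ := by rw [hU, Matrix.mul_one]
  constructor
  · intro hM x hx
    have h1 := hM _ (cj_mem h hx)
    calc dTP x j * (TP U' j * M * TP U i) = (dTP x j * TP U' j) * M * TP U i := by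
          simp only [Matrix.mul_assoc]
      _ = TP U' j * (dTP (U * x * U') j * M) * TP U i := by rw [hd]; simp only [Matrix.mul_assoc]
      _ = TP U' j * M * (dTP (U * x * U') i * TP U i) := by rw [h1]; simp only [Matrix.mul_assoc]
      _ = TP U' j * M * (TP U i * dTP x i) := by rw [TP_mul_dTP h' x i]
      _ = _ := by simp only [Matrix.mul_assoc]
  · intro hM x' hx'
    obtain ⟨x, hx, rfl⟩ := mem_cj.1 hx'
    have h1 := hM x hx
    have h2 : TP U j * (dTP x j * (TP U' j * M * TP U i)) * TP U' i =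
        TP U j * (TP U' j * M * TP U i * dTP x i) * TP U' i := by rw [h1]
    have h3 : TP U j * (dTP x j * (TP U' j * M * TP U i)) * TP U' i =
        dTP (U * x * U') j * M := by
      calc TP U j * (dTP x j * (TP U' j * M * TP U i)) * TP U' i
          = (TP U j * dTP x j) * TP U' j * M * (TP U i * TP U' i) := by
            simp only [Matrix.mul_assoc]
        _ = dTP (U * x * U') j * (TP U j * TP U' j) * M := by
            rw [TP_mul_dTP h' x j, hU, Matrix.mul_one]; simp only [Matrix.mul_assoc]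
        _ = _ := by rw [hU, Matrix.mul_one]
    have h4 : TP U j * (TP U' j * M * TP U i * dTP x i) * TP U' i =
        M * dTP (U * x * U') i := by
      calc TP U j * (TP U' j * M * TP U i * dTP x i) * TP U' i
          = (TP U j * TP U' j) * M * (TP U i * dTP x i) * TP U' i := by
            simp only [Matrix.mul_assoc]
        _ = M * dTP (U * x * U') i * (TP U i * TP U' i) := by
            rw [hU, Matrix.one_mul, TP_mul_dTP h' x i]; simp only [Matrix.mul_assoc]
        _ = _ := by rw [hU, Matrix.mul_one]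
    rw [← h3, h2, h4]

theorem cm_cj (h : U * U' = 1) {g : Matrix ι ι ℂ} {i j : ℕ}
    {M : Matrix (Fin j → ι) (Fin i → ι) ℂ} :
    Cm (U * g * U') i j M ↔ Cm g i j (TP U' j * M * TP U i) := by
  have h' := inv_swap h
  have hU : ∀ n, TP U n * TP U' n = 1 := TP_inv h
  have hU' : ∀ n, TP U' n * TP U n = 1 := TP_inv h'
  unfold Cm
  rw [TP_mul, TP_mul, TP_mul, TP_mul]
  constructor
  · intro h1
    calc TP g j * (TP U' j * M * TP U i)
        = (TP U' j * TP U j) * TP g j * (TP U' j * M * TP U i) := by rw [hU', Matrix.one_mul]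
      _ = TP U' j * (TP U j * TP g j * TP U' j * M) * TP U i := by simp only [Matrix.mul_assoc]
      _ = TP U' j * (M * (TP U i * TP g i * TP U' i)) * TP U i := by rw [h1]
      _ = TP U' j * M * TP U i * TP g i * (TP U' i * TP U i) := by simp only [Matrix.mul_assoc]
      _ = _ := by rw [hU', Matrix.mul_one]
  · intro h1
    calc TP U j * TP g j * TP U' j * M
        = TP U j * (TP g j * (TP U' j * M * TP U i)) * TP U' i := by
          simp only [Matrix.mul_assoc]
          rw [hU, Matrix.mul_one]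
      _ = TP U j * (TP U' j * M * TP U i * TP g i) * TP U' i := by rw [h1]
      _ = (TP U j * TP U' j) * M * (TP U i * TP g i * TP U' i) := by simp only [Matrix.mul_assoc]
      _ = _ := by rw [hU, Matrix.one_mul]

/-- every intertwiner comes from an intertwiner in the other coordinates -/
theorem tw_back (h : U * U' = 1) {i j : ℕ} (M : Matrix (Fin j → ι) (Fin i → ι) ℂ) :
    TP U' j * (TP U j * M * TP U' i) * TP U i = M := by
  have h' := inv_swap h
  calc TP U' j * (TP U j * M * TP U' i) * TP U i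
      = (TP U' j * TP U j) * M * (TP U' i * TP U i) := by simp only [Matrix.mul_assoc]
    _ = M := by rw [TP_inv h', TP_inv h', Matrix.one_mul, Matrix.mul_one]

theorem ctr_cj (h : U * U' = 1) {z : Matrix ι ι ℂ} : z ∈ Ctr (cj U U' 𝔤) ↔ U' * z * U ∈ Ctr 𝔤 := by
  have h' := inv_swap h
  have key : ∀ (V V' : Matrix ι ι ℂ) (hV : V * V' = 1) (a b : Matrix ι ι ℂ),
      V * a * V' * b = b * (V * a * V') ↔ a * (V' * b * V) = V' * b * V * a := by
    intro V V' hV a b
    have hV' := inv_swap hV
    constructor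
    · intro h1
      calc a * (V' * b * V) = (V' * V) * a * (V' * b * V) := by rw [hV', Matrix.one_mul]
        _ = V' * (V * a * V' * b) * V := by simp only [Matrix.mul_assoc]
        _ = V' * b * V * a * (V' * V) := by rw [h1]; simp only [Matrix.mul_assoc]
        _ = _ := by rw [hV', Matrix.mul_one]
    · intro h1
      calc V * a * V' * b = V * a * V' * b * (V * V') := by rw [hV, Matrix.mul_one]
        _ = V * (a * (V' * b * V)) * V' := by simp only [Matrix.mul_assoc]
        _ = (V * V') * b * (V * a * V') := by rw [h1]; simp only [Matrix.mul_assoc]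
        _ = _ := by rw [hV, Matrix.one_mul]
  constructor
  · rintro ⟨h1, h2⟩
    constructor
    · intro x hx
      exact (key U' U h' z x).2 (h1 _ (cj_mem h hx))
    · intro c hc
      refine (key U' U h' z c).2 (h2 _ ?_)
      intro x hx
      obtain ⟨y, hy, rfl⟩ := mem_cj.1 hx
      rw [cj_mul h, cj_mul h, hc y hy]
  · rintro ⟨h1, h2⟩
    constructor
    · intro x hx
      obtain ⟨y, hy, rfl⟩ := mem_cj.1 hx
      exact (key U' U h' z y).1 (h1 y hy)
    · intro c hc
      have h3 := h2 (U' * c * U) ?_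
      · have h4 := (key U' U h' z (U' * c * U)).1 h3
        have h5 : U * (U' * c * U) * U' = c := by
          calc U * (U' * c * U) * U' = (U * U') * c * (U * U') := by simp only [Matrix.mul_assoc]
            _ = c := by rw [h, Matrix.one_mul, Matrix.mul_one]
        rwa [h5] at h4
      · intro x hx
        exact (key U' U h' c x).2 (hc _ (cj_mem h hx))

theorem aeval_cj (h : U * U' = 1) (z : Matrix ι ι ℂ) (p : Polynomial ℂ) :
    Polynomial.aeval (U * z * U') p = U * Polynomial.aeval z p * U' := by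
  induction p using Polynomial.induction_on' with
  | add p q hp hq => rw [map_add, map_add, hp, hq, Matrix.mul_add, Matrix.add_mul]
  | monomial n c =>
    rw [Polynomial.aeval_monomial, Polynomial.aeval_monomial]
    have hpow : (U * z * U') ^ n = U * z ^ n * U' := by
      induction n with
      | zero => rw [pow_zero, pow_zero, Matrix.mul_one, h]
      | succ n ih => rw [pow_succ, ih, cj_mul h, ← pow_succ]
    rw [hpow, Algebra.algebraMap_eq_smul_one, smul_mul_assoc, smul_mul_assoc, Matrix.one_mul,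
      Matrix.one_mul, Matrix.mul_smul, Matrix.smul_mul]

theorem eigInt_cj (h : U * U' = 1) {Y : ℕ} {z : Matrix ι ι ℂ} (hz : EigInt Y z) :
    EigInt Y (U * z * U') := by
  unfold EigInt at hz ⊢
  rw [aeval_cj h, hz, Matrix.mul_zero, Matrix.zero_mul]

theorem small_cj (h : U * U' = 1) {Y : ℕ} {z : Matrix ι ι ℂ} (hz : z ∈ Small 𝔤 Y) :
    U * z * U' ∈ Small (cj U U' 𝔤) Y := by
  obtain ⟨h1, h2, h3⟩ := hz
  have h' := inv_swap h
  refine ⟨?_, ?_, eigInt_cj h h3⟩
  · rw [ctr_cj h]
    have : U' * (U * z * U') * U = (U' * U) * z * (U' * U) := by simp only [Matrix.mul_assoc]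
    rw [this, h', Matrix.one_mul, Matrix.mul_one]
    exact h1
  · intro x hx
    obtain ⟨y, hy, rfl⟩ := mem_cj.1 hx
    rw [cj_mul h, Matrix.trace_mul_comm, ← Matrix.mul_assoc, h', Matrix.one_mul]
    exact h2 y hy

theorem small_cj' (h : U * U' = 1) {Y : ℕ} {z : Matrix ι ι ℂ} (hz : z ∈ Small (cj U U' 𝔤) Y) :
    U' * z * U ∈ Small 𝔤 Y := by
  obtain ⟨h1, h2, h3⟩ := hz
  have h' := inv_swap h
  refine ⟨(ctr_cj h).1 h1, ?_, eigInt_cj h' h3⟩
  intro x hx
  have h4 := h2 _ (cj_mem h hx)
  have h5 : (U' * z * U * x).trace = (z * (U * x * U')).trace := by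
    rw [Matrix.mul_assoc U', Matrix.mul_assoc U', Matrix.trace_mul_comm U']
    simp only [Matrix.mul_assoc]
  rw [h5, h4]

theorem hl_cj (h : U * U' = 1) {Y : ℕ} (hL : HL 𝔤 Y) : HL (cj U U' 𝔤) Y := by
  intro Y' z hz
  have h1 := hL Y' _ (small_cj' h hz)
  let φ : Matrix ι ι ℂ →ₗ[ℚ] Matrix ι ι ℂ :=
    (LinearMap.mulLeft ℚ U) ∘ₗ (LinearMap.mulRight ℚ U')
  have hφ : ∀ x, φ x = U * x * U' := fun x => by
    simp only [φ, LinearMap.comp_apply, LinearMap.mulLeft_apply, LinearMap.mulRight_apply,
      Matrix.mul_assoc]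
  have h2 : φ (U' * z * U) ∈ Submodule.span ℚ (Small (cj U U' 𝔤) Y) := by
    have h3 : Submodule.span ℚ (Small 𝔤 Y) ≤
        (Submodule.span ℚ (Small (cj U U' 𝔤) Y)).comap φ := by
      rw [Submodule.span_le]
      intro w hw
      rw [SetLike.mem_coe, Submodule.mem_comap, hφ]
      exact Submodule.subset_span (small_cj h hw)
    exact h3 h1
  rw [hφ] at h2
  have h4 : U * (U' * z * U) * U' = z := by
    calc U * (U' * z * U) * U' = (U * U') * z * (U * U') := by simp only [Matrix.mul_assoc]
      _ = z := by rw [h, Matrix.one_mul, Matrix.mul_one]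
  rwa [h4] at h2

end Pool.Agent.Q271.ZG
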