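import Mathlib
import Pool.Agent.Q60.ED.ThmB2
import Pool.Agent.Q271.ZG.Defs

/-!
# Project ZG: the Lie algebra of a polarised Hodge structure; statements of the second set of jobs
-/

set_option autoImplicit false

namespace Pool.Agent.Q271.ZG

open Matrix Pool.Agent.Q60.ED

section

variable {ι : Type} [Fintype ι] [DecidableEq ι]

/-- the conjugate by `σ` of the operator which is `w - d` on the part `E w` -/
noncomputable def hH (V : PHS ι) (σ : ℂ ≃+* ℂ) : Matrix ι ι ℂ :=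
  (∑ w ∈ Finset.range (2 * V.d + 1), ((w : ℂ) - V.d) • V.E w).map σ

/-- the Lie algebra generated by the conjugates -/
noncomputable def hLie (V : PHS ι) : Submodule ℂ (Matrix ι ι ℂ) :=
  sInf {𝔫 | (∀ σ, hH V σ ∈ 𝔫) ∧ IsLie 𝔫}

theorem hH_mem (V : PHS ι) (σ : ℂ ≃+* ℂ) : hH V σ ∈ hLie V := by
  rw [hLie, Submodule.mem_sInf]
  exact fun 𝔫 h𝔫 => h𝔫.1 σ

theorem hLie_lie (V : PHS ι) : IsLie (hLie V) := by
  intro x hx y hy
  rw [hLie, Submodule.mem_sInf] at hx hy ⊢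
  exact fun 𝔫 h𝔫 => h𝔫.2 x (hx 𝔫 h𝔫) y (hy 𝔫 h𝔫)

/-- induction -/
theorem hLie_le (V : PHS ι) {𝔫 : Submodule ℂ (Matrix ι ι ℂ)} (h1 : ∀ σ, hH V σ ∈ 𝔫)
    (h2 : IsLie 𝔫) : hLie V ≤ 𝔫 := sInf_le ⟨h1, h2⟩

/-- there are at most `t` orthogonal nonzero rational idempotents in the centre -/
def nIdem (V : PHS ι) (t : ℕ) : Prop :=
  ∀ (s : ℕ) (ε : Fin s → Matrix ι ι ℚ),
    (∀ k, ε k ≠ 0 ∧ ε k * ε k = ε k ∧ qc (ε k) ∈ Ctr (hLie V)) →
    (∀ k l, k ≠ l → ε k * ε l = 0) → s ≤ t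

end

/-- JOB STAR. In suitable coordinates the Lie algebra is stable under the adjoint.
PROOF. Comparing coefficients in `V.mul`, `V.one` (`coch d E z = ∑ z^(w-d) E w`): the `E w`, `w ≤ 2 d`,
are orthogonal idempotents with sum `1`; in `V.inv`: `(E w)ᵀ Q (E w') = 0` unless `w + w' = 2 d`.
Let `H = hH V (refl)`, `C = c(i)`, `x ∈ hLie V`. (1) the entrywise complex conjugate `x̄` is in
`hLie V` (generators go to generators, `hLie_le`; the same for every automorphism `σ`). (2) `C⁻¹ x C ∈ hLie V`: `c(z) x c(z)⁻¹ = ∑_k z^k x_k` with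
`x_k = ∑_{w - w' = k} E w x E w'`, and `[H, x_k] = k x_k`, so the `x_k` are polynomials in `ad H`
applied to `x`. (3) `Q⁻¹ xᵀ Q = - x`: `Hᵀ Q + Q H = ∑ (w - d + w' - d) (E w)ᵀ Q (E w') = 0`, apply
`σ` (`Q` is rational), brackets. (4) `V.gram`: `Q C = Bᴴ B`. Then
`(B x B⁻¹)ᴴ = B ((Bᴴ B)⁻¹ xᴴ (Bᴴ B)) B⁻¹` and
`(Bᴴ B)⁻¹ xᴴ (Bᴴ B) = C⁻¹ Q⁻¹ x̄ᵀ Q C = - C⁻¹ x̄ C ∈ hLie V`. -/
def S_STAR : Prop :=
  ∀ (ι : Type) [Fintype ι] [DecidableEq ι] (V : PHS ι), ∃ B B' : Matrix ι ι ℂ, B * B' = 1 ∧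
    IsStar (cj B B' (hLie V)) ∧ IsLie (cj B B' (hLie V))

/-- JOB INV. The invariant tensors of the Lie algebra are spanned by the invariant rational tensors.
PROOF. With `E w` orthogonal idempotents (see STAR), `c(exp s) = exp (s H)`, so by `TP_exp` (Basic)
`TP (c (exp s)) n = exp (s dTP H n)`. So (every `z ≠ 0` is an `exp s`) a tensor `t` is fixed by all
`TP (c z) n` iff `dTP H n *ᵥ t = 0` (one direction: derivative at `s = 0`, or compare the
coefficients of the powers of `z`; other direction: `exp (s A) *ᵥ t = t` if `A *ᵥ t = 0`).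
(1) For rational `t` apply `σ`; the `x` with `dTP x n *ᵥ cx t = 0` form a Lie algebra (`dTP_comm`).
(2) `{t | ∀ σ, dTP (hH V σ) n *ᵥ t = 0}` is stable under all automorphisms, so it is spanned by
rational vectors (`Pool.Agent.W437.HD.span_rational`), which are in `V.T n`. -/
def S_INV : Prop :=
  ∀ (ι : Type) [Fintype ι] [DecidableEq ι] (V : PHS ι) (n : ℕ),
    (∀ t ∈ V.T n, ∀ x ∈ hLie V, dTP x n *ᵥ cx t = 0) ∧
    ∀ t : (Fin n → ι) → ℂ, (∀ x ∈ hLie V, dTP x n *ᵥ t = 0) →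
      t ∈ Submodule.span ℂ (cx '' (V.T n : Set ((Fin n → ι) → ℚ)))

/-- JOB GAL. The lattice is generated by small vectors, from `Pool.Agent.Q271.ZC.bound`.
PROOF. `Z = Ctr (hLie V)` is stable under the entrywise action of every automorphism `σ` of `ℂ`
(`hLie V` is, and so is its commutant). By `S_STAR` and `S_ADAPT` there is an invertible `g` such that
all `g z g⁻¹`, `z ∈ Z`, are diagonal and (`Ctr_diagonal` in Basic.lean) `g Z g⁻¹` consists of all
diagonal matrices constant on the classes of `ι`. So `Z = ⊕ ℂ e` over the finite set `Ω` of its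
minimal idempotents (`e ∈ Z`, `e² = e ≠ 0`, `∀ z ∈ Z, ∃ c, z e = c e`), `z = ∑ m_e e`, and
`EigInt Y' z` iff all `m_e` are integers with `|m_e| ≤ Y'`. The automorphisms permute `Ω`; `G` = the
(finite) image in `Equiv.Perm Ω`. With `H = hH V refl`, `s e = tr (H e) = ∑ (w - d) tr (E w e)` is an
integer with `|s e| ≤ d card ι` (`e` commutes with `H`, so with the `E w`, polynomials in `H`; the
trace of an idempotent is its rank). For `z = ∑ m_e e ∈ Z`: `tr (z x) = 0` for all `x ∈ hLie V` iff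
`tr (z (hH V σ)) = 0` for all `σ` (`tr (z [x, y]) = 0` as `z` commutes with `x`) iff
`∑ m_e s (σ⁻¹ e) = 0` for all `σ` (if the `m_e` are rational), since
`tr (e (hH V σ)) = σ (tr (σ⁻¹(e) H))`. That is `m ∈ relQ G s`. `Pool.Agent.Q271.ZC.bound` (`w = 1`,
`B = d card ι`, number of orbits `≤ t` since the orbit sums are orthogonal rational idempotents in
`Z`; `card Ω ≤ card ι`, the bound is monotone in it) gives `m ∈ small G s Y`. -/
def S_GAL : Prop :=
  ∀ (ι : Type) [Fintype ι] [DecidableEq ι] (V : PHS ι) (t Y : ℕ), 1 ≤ Fintype.card ι →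
    nIdem V t →
    Real.exp (20 * min (Real.sqrt (t * Fintype.card ι)) ((Fintype.card ι : ℝ) ^ (2 / 3 : ℝ)) *
      Real.log (3 * Fintype.card ι * (Fintype.card ι * V.d + 1))) ≤ Y →
    HL (hLie V) Y

end Pool.Agent.Q271.ZG
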