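import Mathlib
import Pool.Agent.Q271.ZG.Defs

/-!
# Project ZG: statements of the lemma jobs

Everything is about a complex Lie algebra `𝔤` of matrices which is stable under the conjugate
transpose (no other structure theory is assumed; all facts are proved from positivity).
-/

set_option autoImplicit false

namespace Pool.Agent.Q271.ZG

open Matrix Pool.Agent.Q60.ED

/-- JOB ADAPT. Adapted coordinates.
PROOF. Among the real subspaces `𝔱` of the Hermitian elements of `𝔤` whose elements commute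
pairwise take one of maximal dimension. The Hermitian elements of `Ctr 𝔤` commute with `𝔤` and with
each other (`Ctr 𝔤` is a commutative star-stable algebra: an element of it commutes with the
commutant, hence with every element of `Ctr 𝔤`, which lies in the commutant; star-stability because
`𝔤` and the commutant are). So the family `𝔱 ∪ Ctr` (Hermitian parts) is commuting and Hermitian and
there is a unitary `U` such that all `U t Uᴴ`, `U z Uᴴ` are diagonal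
(`LinearMap.IsSymmetric.directSum_isInternal_of_pairwise_commute` and
`DirectSum.IsInternal.subordinateOrthonormalBasis`; a finite spanning family is enough). Choose `ρ`
in `U 𝔱 Uᴴ` outside finitely many proper subspaces such that
`ρ i - ρ j = ρ k - ρ l` implies `s i - s j = s k - s l` for all `s` in `U 𝔱 Uᴴ`. If `y ∈ U 𝔤 Uᴴ`
with `y i j ≠ 0 → ρ i = ρ j` then `y` commutes with `U 𝔱 Uᴴ` and so do `y + yᴴ` and `i (y - yᴴ)`,
which are in `U 𝔱 Uᴴ` by maximality, so `y` is diagonal. (The same argument shows that every `dg s`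
in `U 𝔤 Uᴴ` is in `U 𝔱 Uᴴ`, which gives `gen`.) -/
def S_ADAPT : Prop :=
  ∀ (ι : Type) [Fintype ι] [DecidableEq ι] (𝔤 : Submodule ℂ (Matrix ι ι ℂ)),
    IsStar 𝔤 → IsLie 𝔤 →
    ∃ (U : Matrix ι ι ℂ) (ρ : ι → ℝ), U * Uᴴ = 1 ∧ Adapted (cj U Uᴴ 𝔤) ρ

/-- JOB OPT. Maximisation over a compact group.
PROOF. `F k = Re tr (k X kᴴ R)` is continuous on the compact set `K`; let `k` be a maximum and
`X' = k X kᴴ` (Hermitian). For `z ∈ 𝔨` and real `s` the element `exp (s z) k` is in `K` and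
`(exp (s z))ᴴ = exp (-s z)`, so `f s = Re tr (exp (s z) X' exp (-s z) R) ≤ f 0`. Hence `f' 0 = 0`,
i.e. `Re tr ([z, X'] R) = 0`; as `[z, X']` and `R` are Hermitian the trace is real, so it is `0`.
And `f'' 0 ≤ 0`, i.e. `Re tr ([z, [z, X']] R) ≤ 0`, and
`tr ([z, [z, X']] R) = - tr ([z, X'] [z, R])`. -/
def S_OPT : Prop :=
  ∀ (ι : Type) [Fintype ι] [DecidableEq ι] (K 𝔨 : Set (Matrix ι ι ℂ)) (X R : Matrix ι ι ℂ),
    IsCompact K → (1 : Matrix ι ι ℂ) ∈ K → (∀ k ∈ K, k * kᴴ = 1) →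
    (∀ k ∈ K, ∀ l ∈ K, k * l ∈ K) →
    (∀ z ∈ 𝔨, zᴴ = -z ∧ ∀ s : ℝ, NormedSpace.exp (s • z) ∈ K) → Xᴴ = X → Rᴴ = R →
    ∃ k ∈ K, (∀ z ∈ 𝔨, ((z * (k * X * kᴴ) - (k * X * kᴴ) * z) * R).trace = 0) ∧
      ∀ z ∈ 𝔨, 0 ≤ ((z * (k * X * kᴴ) - (k * X * kᴴ) * z) * (z * R - R * z)).trace.re

/-- JOB CAS. A unitary matrix which commutes with the intertwiners of degree two normalises `𝔤`.
PROOF. Let `P` be the orthogonal projection of the matrices onto `𝔤` for `⟨x, y⟩ = tr (x yᴴ)`,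
`(P z) a b = ∑ P_{ab,cd} z c d`. For `y ∈ 𝔤` the map `ad y` preserves `𝔤` and its orthogonal (`𝔤` is
star-stable), so `P (y z - z y) = y P z - P z y`. In entries: the matrix `Ω` on pairs with
`Ω_{(a,q),(b,c)} = P_{ab,cq}` satisfies `Ω (y ⊗ 1 + 1 ⊗ y) = (y ⊗ 1 + 1 ⊗ y) Ω`, i.e. (pairs =
`Fin 2 → ι`) `Tw 𝔤 2 2 Ω`. So `(u ⊗ u) Ω = Ω (u ⊗ u)`, which by the same computation of entries says
`P (u z) u = u P (z u)` for all `z`; take `z = x uᴴ` with `x ∈ 𝔤`: `P (u x uᴴ) u = u P x = u x`, so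
`u x uᴴ = P (u x uᴴ) ∈ 𝔤`. -/
def S_CAS : Prop :=
  ∀ (ι : Type) [Fintype ι] [DecidableEq ι] (𝔤 : Submodule ℂ (Matrix ι ι ℂ)),
    IsStar 𝔤 → IsLie 𝔤 → ∀ u : Matrix ι ι ℂ, u * uᴴ = 1 →
    (∀ M, Tw 𝔤 2 2 M → Cm u 2 2 M) → ∀ x ∈ 𝔤, u * x * uᴴ ∈ 𝔤

/-- JOB DOM (dominance). `𝔤` is a star-stable Lie algebra with `𝔤 = 𝔫 + 𝔫ᴴ + 𝔥`; `Ω₀` is a space of
vectors killed by `𝔫` and stable under `𝔥`. Then `Ω₀` lies in a `𝔤`-stable space `E` in which all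
vectors killed by `𝔫` belong to `Ω₀`.
PROOF. `E₀ = Ω₀`, `E_{n+1} = E_n + 𝔤 E_n`, `E` the union (in the definition we also ask that `E` is
the smallest: it is contained in every `𝔤`-stable space which contains `Ω₀`). (i) For `b ∈ 𝔫 + 𝔥`:
`b E_n ⊆ E_n`, because `b (y w) = y (b w) + [b, y] w`. (ii) `E_n ⊆ Ω₀ + 𝔫ᴴ V`. If `v ∈ E` is killed
by `𝔫`, write `v = w + m`, `w ∈ Ω₀`, `m ∈ 𝔫ᴴ V`; then `m` is killed by `𝔫`, so it is orthogonal to
`𝔫ᴴ V`, so `m = 0`. -/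
def S_DOM : Prop :=
  ∀ (κ : Type) [Fintype κ] [DecidableEq κ] (𝔤 𝔫 𝔥 : Submodule ℂ (Matrix κ κ ℂ)),
    IsStar 𝔤 → IsLie 𝔤 → 𝔫 ≤ 𝔤 → 𝔥 ≤ 𝔤 →
    (∀ x ∈ 𝔤, ∃ a ∈ 𝔫, ∃ b ∈ 𝔫, ∃ c ∈ 𝔥, x = a + bᴴ + c) →
    ∀ Ω₀ : Submodule ℂ (κ → ℂ), (∀ x ∈ 𝔫, ∀ ω ∈ Ω₀, x *ᵥ ω = 0) →
    (∀ x ∈ 𝔥, ∀ ω ∈ Ω₀, x *ᵥ ω ∈ Ω₀) →
    ∃ E : Submodule ℂ (κ → ℂ), Ω₀ ≤ E ∧ (∀ x ∈ 𝔤, ∀ v ∈ E, x *ᵥ v ∈ E) ∧
      (∀ F : Submodule ℂ (κ → ℂ), Ω₀ ≤ F → (∀ x ∈ 𝔤, ∀ v ∈ F, x *ᵥ v ∈ F) → E ≤ F) ∧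
      ∀ v ∈ E, (∀ x ∈ 𝔫, x *ᵥ v = 0) → v ∈ Ω₀

/-- JOB PRJ. The orthogonal projection onto a stable subspace commutes with a star-stable set. -/
def S_PRJ : Prop :=
  ∀ (κ : Type) [Fintype κ] [DecidableEq κ] (E : Submodule ℂ (κ → ℂ)),
    ∃ P : Matrix κ κ ℂ, Pᴴ = P ∧ (∀ v, P *ᵥ v ∈ E) ∧ (∀ v ∈ E, P *ᵥ v = v) ∧
      ∀ x : Matrix κ κ ℂ, (∀ v ∈ E, x *ᵥ v ∈ E) → (∀ v ∈ E, xᴴ *ᵥ v ∈ E) → x * P = P * x

/-- JOB WDG. The antisymmetric tensor of a family of coordinate vectors. (The tensors of degree `k`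
are the functions on `Fin k → ι`.)
PROOF. (1) multilinearity of the determinant (Leibniz formula, exchange sums); (2), (3) expand
`dTP x k *ᵥ wdg c` at `I`: `∑_r ∑_a x (I r) a wdg c (update I r a)`; (4) the minors of the matrix
`v (I r) (c s)` vanish for `I = update c r i`, the one with `I = c` does not vanish (otherwise
`a = 0`, but `TP v k` is invertible and `wdg c ≠ 0`); Cramer's rule. -/
def S_WDG : Prop :=
  ∀ (ι : Type) [Fintype ι] [DecidableEq ι] (k : ℕ) (c : Fin k → ι), Function.Injective c →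
    wdg c c = 1 ∧
    (∀ (v : Matrix ι ι ℂ) (I : Fin k → ι),
      (TP v k *ᵥ wdg c) I = (Matrix.of fun r s : Fin k => v (I r) (c s)).det) ∧
    (∀ x : Matrix ι ι ℂ, (∀ i, i ∉ Set.range c → ∀ s, x i (c s) = 0) →
      dTP x k *ᵥ wdg c = (∑ s, x (c s) (c s)) • wdg c) ∧
    (∀ (x : Matrix ι ι ℂ) (r : Fin k) (i : ι), i ∉ Set.range c →
      (dTP x k *ᵥ wdg c) (Function.update c r i) = x i (c r)) ∧
    ∀ (v : Matrix ι ι ℂ) (a : ℂ), v.det ≠ 0 → TP v k *ᵥ wdg c = a • wdg c →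
      ∀ i, i ∉ Set.range c → ∀ s, v i (c s) = 0

/-- JOB ROOT. Simple systems.
PROOF. `T = {s | dg s ∈ 𝔤}` (real subspace of `ι → ℝ`); for `α ∈ T` let
`𝔤_α = {y ∈ 𝔤 | ∀ s ∈ T, y i j ≠ 0 → s i - s j = α ⬝ s}`. Every `y ∈ 𝔤` is the sum of the
components `(y_a) i j = if ρ i - ρ j = a then y i j else 0`, which are in `𝔤` (they are polynomials in
`ad (dg ρ)` applied to `y`), and by `gen` all `(i, j)` with `ρ i - ρ j = a` give the same functional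
`s i - s j` on `T`, which is `α ⬝ s` for a unique `α ∈ T` (orthogonal projection). `𝔤_0` consists of
diagonal matrices. If `y ∈ 𝔤_α`, `yᴴ ∈ 𝔤_{-α}`, `[𝔤_α, 𝔤_β] ⊆ 𝔤_{α+β}`.
(R1) for `e ∈ 𝔤_α`: `[e, eᴴ] = ‖e‖² dg α`, `‖e‖² = tr (e eᴴ)`: it is a real diagonal matrix `dg t`
in `𝔤` and `t ⬝ s = tr ([e, eᴴ] dg s) = tr (eᴴ [dg s, e]) = (α ⬝ s) ‖e‖²`.
(UN) for `e ∈ 𝔤_α`, `y ∈ 𝔤_β`: if `[eᴴ, y] = 0` then `‖[e, y]‖² = - ‖e‖² (α ⬝ β) ‖y‖²`, and if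
`[e, y] = 0` then `‖[eᴴ, y]‖² = ‖e‖² (α ⬝ β) ‖y‖²` (move `eᴴ` to the other side and use Jacobi).
(R2) `dim 𝔤_α ≤ 1` for `α ≠ 0`: if `e, y ∈ 𝔤_α`, `tr (y eᴴ) = 0`, then `[eᴴ, y]` is a diagonal matrix
of `𝔤` orthogonal to all `dg s`, so it is `0`, and (UN) gives `‖[e, y]‖² = - ‖e‖² |α|² ‖y‖²`, `y = 0`
or `e = 0`.
(R4) if `α, β, α + β` are positive roots (`α ⬝ ρ > 0`, `𝔤_α ≠ 0`) then `[𝔤_α, 𝔤_β] = 𝔤_{α+β}`:
otherwise `[e_α, e_β] = 0`; `tr ([e_αᴴ, e_{α+β}] e_βᴴ) = tr (e_{α+β} [e_βᴴ, e_αᴴ]) = 0` and (R2) give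
`[e_αᴴ, e_{α+β}] = 0`, so `α ⬝ (α + β) ≤ 0`, while `[e_α, e_β] = 0` gives `α ⬝ β ≥ 0`; contradiction.
(R5) the simple roots are the positive roots which are not sums of two positive roots. For simple
`α ≠ β`: `β - α` is not a root, so `[e_αᴴ, e_β] = 0` (this is `ne` after taking adjoints) and
`α ⬝ β ≤ 0`. Vectors in the open half space `ρ > 0` with pairwise nonpositive scalar products are
linearly independent. Every positive root is a sum of simple roots step by step inside the positive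
roots (induction on `α ⬝ ρ`, finitely many roots), so with (R4) the `e_a` generate. Normalise
`‖e_a‖ = 1`. -/
def S_ROOT : Prop :=
  ∀ (ι : Type) [Fintype ι] [DecidableEq ι] (𝔤 : Submodule ℂ (Matrix ι ι ℂ)) (ρ : ι → ℝ),
    Adapted 𝔤 ρ → ∃ (r : ℕ) (e : Fin r → Matrix ι ι ℂ) (α : Fin r → ι → ℝ), Simple 𝔤 ρ r e α

/-- JOB ROT. PROOF. `v` commutes with the diagonal matrices `dg s ∈ 𝔤` (by `gen` with `k = l`), so
`v e_a vᴴ` is in the same root space and equals `c_a e_a` (`one`), `|c_a| = 1` as the norm is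
preserved. `dg (α a) ∈ 𝔤` (`self`), and as the `α a` are independent there is `s` in their real span
with `s ⬝ α a = θ_a` for any given reals `θ_a` (Gram matrix). `edg s * e_a * (edg s)ᴴ =
exp (i (s ⬝ α a)) e_a` since the entries of `e_a` are at places with `s i - s j = α a ⬝ s`. Choose
`θ_a` such that `w = v * edg s` commutes with all `e_a`; by unitarity it commutes with `(e a)ᴴ`, and
with the diagonal elements of `𝔤` (real and imaginary parts are `dg s`'s). The matrices which commute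
with `w` form a Lie algebra, so by `gen` `w` commutes with the strictly positive part of `𝔤`, with
its adjoint, and with the diagonal part. Every `x ∈ 𝔤` is the sum of its strictly positive, strictly
negative and zero parts with respect to `ρ i - ρ j`, each in `𝔤` (polynomials in `ad (dg ρ)`; see also
`split` in Basic.lean). -/
def S_ROT : Prop :=
  ∀ (ι : Type) [Fintype ι] [DecidableEq ι] (𝔤 : Submodule ℂ (Matrix ι ι ℂ)) (ρ : ι → ℝ) (r : ℕ)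
    (e : Fin r → Matrix ι ι ℂ) (α : Fin r → ι → ℝ), Adapted 𝔤 ρ → Simple 𝔤 ρ r e α →
    ∀ v : Matrix ι ι ℂ, v * vᴴ = 1 → (∀ i j, v i j ≠ 0 → ρ i = ρ j) →
    (∀ x ∈ 𝔤, v * x * vᴴ ∈ 𝔤) →
    ∃ s : ι → ℝ, dg s ∈ 𝔤 ∧ ∀ x ∈ 𝔤, (v * edg s) * x = x * (v * edg s)

/-- the properties of the highest weights: `top j` is a coordinate with the same central character
as `j` whose vector is killed by the `e a`, and `n j` are the multiplicities of the simple roots in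
the difference of the weights -/
structure Top {ι : Type} [Fintype ι] [DecidableEq ι] (𝔤 : Submodule ℂ (Matrix ι ι ℂ)) (r : ℕ)
    (e : Fin r → Matrix ι ι ℂ) (α : Fin r → ι → ℝ) (top : ι → ι) (n : ι → Fin r → ℕ) : Prop where
  cls : ∀ j, ∀ z ∈ Ctr 𝔤, z (top j) (top j) = z j j
  same : ∀ j j', (∀ z ∈ Ctr 𝔤, z j j = z j' j') → ∀ s : ι → ℝ, dg s ∈ 𝔤 → s (top j) = s (top j')
  kill : ∀ a i j, e a i (top j) = 0
  chain : ∀ j, ∀ s : ι → ℝ, dg s ∈ 𝔤 → s (top j) - s j = ∑ a, (n j a : ℝ) * (α a ⬝ᵥ s)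
  len : ∀ j, ∑ a, n j a + 1 ≤ Fintype.card ι

/-- JOB TOP. PROOF. Call `j ~ k` if `z j j = z k k` for all `z ∈ Ctr 𝔤`. Let `top j` be a `k ~ j` with
`ρ k` maximal. The matrices which commute with `Ctr 𝔤` have no entries between different classes
(the indicator function of a class is in `Ctr 𝔤`: interpolation, `Ctr 𝔤` is an algebra of diagonal
matrices), in particular those of `𝔤`. So `e_a (e_{top j})`, which has larger `ρ`, is `0`.
KEY: if `e_k` (coordinate vector) is killed by all `e_a` [more generally: if every `e_l`, `l ~ k`,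
`s l = s k` for all `dg s ∈ 𝔤`, is killed] then `s k = s (top k)` for all `dg s ∈ 𝔤`. Proof: the
space `W` spanned by the `c E`, `c` in the commutant, `E` the `𝔤`-module generated by `e_k`, is stable
under `𝔤` and the commutant (both star-stable), so the projection onto it is in `Ctr 𝔤`, hence
diagonal; its `k`-th entry is `1`, so its `(top k)`-th entry is `1`, so `e_{top k} ∈ W`. `W` is the
smallest `𝔤`-stable space which contains `Ω₀ = {c e_k}`, which is killed by the positive part of `𝔤`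
and on which the diagonal elements of `𝔤` act by the scalars `s k`; by `S_DOM` (`e_{top k}` is killed
by the positive part) `e_{top k} ∈ Ω₀`, which gives `s (top k) = s k`.
CHAIN: by induction on the number of `l ~ j` with `ρ l > ρ j`: if `s j = s (top j)` for all `s` take
`n j = 0`. Otherwise by KEY some `l ~ j` with the same weights has `e_a e_l ≠ 0`, so there is `m` with
`e a m l ≠ 0`, `m ~ l`, `s m - s l = α a ⬝ s`, `ρ m > ρ j`; take `n j = n m + single a`. The length is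
at most the number of `l ~ j` with `ρ l > ρ j`. -/
def S_TOP : Prop :=
  ∀ (ι : Type) [Fintype ι] [DecidableEq ι] (𝔤 : Submodule ℂ (Matrix ι ι ℂ)) (ρ : ι → ℝ) (r : ℕ)
    (e : Fin r → Matrix ι ι ℂ) (α : Fin r → ι → ℝ), Adapted 𝔤 ρ → Simple 𝔤 ρ r e α →
    ∃ (top : ι → ι) (n : ι → Fin r → ℕ), Top 𝔤 r e α top n

/-- JOB HWM. Products of tensors killed by the `e a`, and the two tensors attached to a simple root.
PROOF. (1) tensor product `tmul ω ω'`: `dTP x (k + k') (tmul ω ω') = tmul (dTP x k ω) ω' + tmul ω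
(dTP x k' ω')`, `TP g (k + k') (tmul ω ω') = tmul (TP g k ω) (TP g k' ω')`. (2) the constant `1` on
`Fin 0 → ι`. (3) the coordinate vector. (4) There are `i, j` with `(e a)ᴴ i j ≠ 0`, so
`ρ i < ρ j`. Let `J = {l | ρ j ≤ ρ l}`, `c : Fin k → ι` an injective enumeration of `J`, `ω = wdg c`
(`S_WDG`): killed by all `e b` (they raise `ρ`), `dTP (dg s) k ω = (∑ s (c l)) ω`,
`TP (diagonal ζ) k ω = (∏ ζ (c l)) ω`, and `ω' = dTP (e a)ᴴ k ω ≠ 0` (value at `update c r i`). The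
second tensor is `tmul ω ω' - tmul ω' ω`: `e b` kills it because `[e b, (e a)ᴴ] = 0` for `b ≠ a` and
`[e a, (e a)ᴴ] = dg (α a)` acts on `ω` by a scalar; it is not zero because `ω` and `ω'` have different
weights (`α a ⬝ ρ > 0`); `diagonal ζ` commutes with `(e a)ᴴ` (`ζ` central). -/
def S_HWM : Prop :=
  ∀ (ι : Type) [Fintype ι] [DecidableEq ι] (𝔤 : Submodule ℂ (Matrix ι ι ℂ)) (ρ : ι → ℝ) (r : ℕ)
    (e : Fin r → Matrix ι ι ℂ) (α : Fin r → ι → ℝ), Adapted 𝔤 ρ → Simple 𝔤 ρ r e α →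
    ∀ ζ : ι → ℂ, (∀ j, ζ j ≠ 0) → diagonal ζ ∈ Ctr 𝔤 →
    (∀ k μ c k' μ' c', HW 𝔤 e ζ k μ c → HW 𝔤 e ζ k' μ' c' →
      HW 𝔤 e ζ (k + k') (fun s => μ s + μ' s) (c * c')) ∧
    HW 𝔤 e ζ 0 (fun _ => 0) 1 ∧
    (∀ j, (∀ a i, e a i j = 0) → HW 𝔤 e ζ 1 (fun s => s j) (ζ j)) ∧
    ∀ a, ∃ (k : ℕ) (μ : (ι → ℝ) → ℝ) (c : ℂ), k ≤ Fintype.card ι ∧ c ≠ 0 ∧ HW 𝔤 e ζ k μ c ∧
      HW 𝔤 e ζ (k + k) (fun s => μ s + μ s - α a ⬝ᵥ s) (c * c)

/-- JOB HWE. Two such tensors of the same weight have the same scalar.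
PROOF. Work on `κ = (Fin k → ι) ⊕ (Fin k' → ι)` with the block diagonal action of `𝔤`,
`Ω₀ = ℂ (ω, ω')`, `𝔫` = the strictly positive part of `𝔤` (it kills `ω`, `ω'` by `Simple.gen`),
`𝔥` = the diagonal part. `S_DOM` gives `E`; the projection `P` onto `E` (`S_PRJ`) commutes with `𝔤`,
so its four blocks satisfy `Tw`, so `R = (TP ζ k, TP ζ k')` commutes with `P` and `R (ω, ω') ∈ E`; it
is killed by `𝔫` (as `ζ` is central), so it is in `Ω₀`: `(c ω, c' ω') = λ (ω, ω')`, `c = λ = c'`. -/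
def S_HWE : Prop :=
  ∀ (ι : Type) [Fintype ι] [DecidableEq ι] (𝔤 : Submodule ℂ (Matrix ι ι ℂ)) (ρ : ι → ℝ) (r : ℕ)
    (e : Fin r → Matrix ι ι ℂ) (α : Fin r → ι → ℝ), Adapted 𝔤 ρ → Simple 𝔤 ρ r e α →
    ∀ ζ : ι → ℂ, diagonal ζ ∈ Ctr 𝔤 → ∀ K : ℕ,
    (∀ i j, i ≤ K → j ≤ K → ∀ M, Tw 𝔤 i j M → Cm (diagonal ζ) i j M) →
    ∀ k μ c k' μ' c', k ≤ K → k' ≤ K → HW 𝔤 e ζ k μ c → HW 𝔤 e ζ k' μ' c' →
      (∀ s : ι → ℝ, dg s ∈ 𝔤 → μ s = μ' s) → c = c'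

/-- JOB ARI. The arithmetic of the lattice. Suppose that `∏ ζ_j ^ a_j = 1` for all integer vectors
`a` such that `∑ a_j λ_j` (with `λ_j` = weight of `top j`) is an integral combination
`∑ m_b α_b` with `∑ |a_j| + 2 card ι ∑ |m_b| ≤ K`. Then this holds without the bound if
`K ≥ 3 (card ι)^4 Y`, where `Y` is as in `HL`.
PROOF. `j ~ k` if `z j j = z k k` for all `z ∈ Ctr 𝔤`. Let `(a, m)` be a relation. `ā_j` = average of
`a` over the class of `j`. (1) `diagonal ā ∈ Ctr 𝔤` (indicator functions of classes are in `Ctr 𝔤`)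
and `∑ ā_j x_jj = 0` for all `x ∈ 𝔤`: it is enough to take `x = dg s ∈ 𝔤` (the diagonal part of `x`,
real and imaginary parts); by `chain`, `∑ ā_j s_j = ∑ a_j s (top j) - ∑_b (∑_j ā_j n j b) (α b ⬝ s) =
∑_b q_b (α b ⬝ s)` with `q_b = m_b - ∑_j ā_j n j b`, and for `s = α b` the left side is
`tr (diagonal ā * [e b, (e b)ᴴ]) = 0`; so `|∑ q_b α_b|² = 0`, `∑ q_b α_b = 0`; by independence also
`m_b = ∑_j ā_j n j b`, so `∑_b |m_b| ≤ ∑_j |ā_j| (card ι) ≤ card ι * ∑ |a_j|`. (2) A positive multiple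
of `diagonal ā` is in `Small 𝔤 Y'`, so `diagonal ā = ∑ q_l diagonal (m^(l))` with `m^(l) : ι → ℤ`
class functions, `|m^(l)| ≤ Y`, `diagonal (m^(l)) ∈ Small 𝔤 Y`, at most `card ι` terms (linearly
independent). Each `m^(l)` is itself a relation (`∑_j m_j s (top j) = ∑_j m_j (s (top j) - s j) =
∑_b (∑_j m_j n j b) α_b ⬝ s`) with `∑ |m_j| ≤ card ι * Y`, so by hypothesis `∏ ζ ^ m = 1`.
(3) `a' = a - ∑ ⌊q_l⌋ m^(l)` is a relation, its class averages are `∑ {q_l} m^(l)`, of absolute value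
at most `card ι * Y`. Let `a''` be supported on one representative of each class and have the same
class sums as `a'`: `∑ |a''| ≤ card ι ^ 2 * Y`; as `ζ` and `s (top ·)` only depend on the class,
`a''` is a relation and `∏ ζ ^ a'' = ∏ ζ ^ a'`; by (1) its `m''` satisfies
`∑ |m''| ≤ card ι ^ 3 * Y`; now `card ι ^ 2 * Y + 2 card ι * card ι ^ 3 * Y ≤ K`. -/
def S_ARI : Prop :=
  ∀ (ι : Type) [Fintype ι] [DecidableEq ι] (𝔤 : Submodule ℂ (Matrix ι ι ℂ)) (ρ : ι → ℝ) (r : ℕ)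
    (e : Fin r → Matrix ι ι ℂ) (α : Fin r → ι → ℝ) (top : ι → ι) (n : ι → Fin r → ℕ),
    Adapted 𝔤 ρ → Simple 𝔤 ρ r e α → Top 𝔤 r e α top n → ∀ Y K : ℕ, 1 ≤ Y → HL 𝔤 Y →
    3 * Fintype.card ι ^ 4 * Y ≤ K → ∀ ζ : ι → ℂ, (∀ j, ζ j ≠ 0) →
    (∀ j j', (∀ z ∈ Ctr 𝔤, z j j = z j' j') → ζ j = ζ j') →
    (∀ (a : ι → ℤ) (m : Fin r → ℤ),
      (∀ s : ι → ℝ, dg s ∈ 𝔤 → ∑ j, (a j : ℝ) * s (top j) = ∑ b, (m b : ℝ) * (α b ⬝ᵥ s)) →
      ∑ j, |a j| + 2 * Fintype.card ι * ∑ b, |m b| ≤ K → ∏ j, ζ j ^ a j = 1) →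
    ∀ (a : ι → ℤ) (m : Fin r → ℤ),
      (∀ s : ι → ℝ, dg s ∈ 𝔤 → ∑ j, (a j : ℝ) * s (top j) = ∑ b, (m b : ℝ) * (α b ⬝ᵥ s)) →
      ∏ j, ζ j ^ a j = 1

/-- JOB POL. From unitary to invertible matrices.
PROOF. As `𝔤` is star-stable, `Tw 𝔤 i j M` implies `Tw 𝔤 j i Mᴴ`, so `hᴴ` and `hᴴ h` also commute
with all `M` of degree `i + j ≤ N`. Spectral theorem: `hᴴ h = W diag(λ) Wᴴ`, `λ > 0`. For real `t`
put `p_t = W diag(λ^t) Wᴴ` and `u_t = W diag(exp (i t log λ)) Wᴴ`. With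
`M' = TP Wᴴ j * M * TP W i`, `hᴴ h` commutes with `M` iff `M'_{J I} ≠ 0` implies
`∏ λ (J k) = ∏ λ (I k)`; so all `u_t` commute with `M` for `i + j ≤ N`, hence (hypothesis) for all
`M`, so `M'_{J I} ≠ 0` implies `exp (i t log ∏ λ (J k)) = exp (i t log ∏ λ (I k))` for all `t`, so
`∏ λ (J k) = ∏ λ (I k)`: all `p_t` commute with all `M`. Finally `h = u p_{1/2}` with
`u = h p_{-1/2}` unitary and commuting with the `M` of degree `≤ N`, hence with all `M`. -/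
def S_POL : Prop :=
  ∀ (ι : Type) [Fintype ι] [DecidableEq ι] (𝔤 : Submodule ℂ (Matrix ι ι ℂ)) (N : ℕ), IsStar 𝔤 →
    (∀ u : Matrix ι ι ℂ, u * uᴴ = 1 → (∀ i j, i + j ≤ N → ∀ M, Tw 𝔤 i j M → Cm u i j M) →
      ∀ i j M, Tw 𝔤 i j M → Cm u i j M) →
    ∀ h : Matrix ι ι ℂ, h.det ≠ 0 → (∀ i j, i + j ≤ N → ∀ M, Tw 𝔤 i j M → Cm h i j M) →
      ∀ i j M, Tw 𝔤 i j M → Cm h i j M

/-- JOB FLAG. PROOF. `X' = v (dg ρ) vᴴ` is in `𝔤` and commutes with `dg ρ`, so it is diagonal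
(`Adapted.diag`), real: `X' = dg ρ'`. Let `𝔫` be the strictly positive part of `𝔤`
(`x i j ≠ 0 → ρ j < ρ i`). (1) If `e ∈ 𝔤`, `e ≠ 0` has all its entries at places with
`ρ i - ρ j = a > 0` and `ρ' i - ρ' j = a'` then `a' ≥ 0`: `z = e - eᴴ` is skew, `[z, dg ρ] =
- a (e + eᴴ)`, `[z, X'] = - a' (e + eᴴ)`, so the hypothesis says `a a' tr ((e + eᴴ)²) ≥ 0` and
`e + eᴴ ≠ 0`. Every element of `𝔫` is a sum of such `e` (polynomials in `ad (dg ρ)`, `ad (dg ρ')`).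
(2) Fix a threshold: `J = {l | t ≤ ρ l}`, `c : Fin k → ι` enumerating `J`, `ω = wdg c`, `ω' =
TP v k *ᵥ ω`. `ω'` is killed by `𝔫`: for `e` as in (1), `e' = vᴴ e v ∈ 𝔤` has its entries at places
with `ρ i - ρ j = a' ≥ 0` (as `[X', e] = a' e`); if `a' > 0` then `dTP e' k *ᵥ ω = 0` (`S_WDG`), if
`a' = 0` then `e'` is diagonal (`Adapted.diag`) and nilpotent, so `0`; and
`dTP e k * TP v k = TP v k * dTP e' k`. (3) `S_DOM` (on `κ = Fin k → ι`, `Ω₀ = ℂ ω`) and `S_PRJ`: the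
projection onto `E` is in `Tw 𝔤 k k`, so commutes with `TP v k`, so `ω' ∈ E`, so `ω' = a ω`.
(4) `S_WDG` (last part): `v i (c s) = 0` for `i ∉ J`, i.e. `v i j = 0` if `ρ j ≥ t > ρ i`. As `v` is
unitary and preserves the span of the `e_j`, `j ∈ J`, so does `vᴴ`; so `v i j = 0` if `ρ i ≠ ρ j`. -/
def S_FLAG : Prop :=
  ∀ (ι : Type) [Fintype ι] [DecidableEq ι] (𝔤 : Submodule ℂ (Matrix ι ι ℂ)) (ρ : ι → ℝ),
    Adapted 𝔤 ρ → ∀ v : Matrix ι ι ℂ, v * vᴴ = 1 → (∀ x ∈ 𝔤, v * x * vᴴ ∈ 𝔤) →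
    (∀ x ∈ 𝔤, vᴴ * x * v ∈ 𝔤) → (∀ k ≤ Fintype.card ι, ∀ M, Tw 𝔤 k k M → Cm v k k M) →
    (v * dg ρ * vᴴ) * dg ρ = dg ρ * (v * dg ρ * vᴴ) →
    (∀ z ∈ 𝔤, zᴴ = -z →
      0 ≤ ((z * (v * dg ρ * vᴴ) - (v * dg ρ * vᴴ) * z) * (z * dg ρ - dg ρ * z)).trace.re) →
    ∀ i j, v i j ≠ 0 → ρ i = ρ j

end Pool.Agent.Q271.ZG
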