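import Mathlib
import Pool.Agent.Q271.ZG.Basic
import Pool.Agent.Q271.ZG.Stm

/-!
# Project ZG: the centre
-/

set_option autoImplicit false
set_option linter.unusedSectionVars false

namespace Pool.Agent.Q271.ZG

open Matrix Pool.Agent.Q60.ED

variable {ι : Type} [Fintype ι] [DecidableEq ι] {𝔤 : Submodule ℂ (Matrix ι ι ℂ)} {r : ℕ}
  {e : Fin r → Matrix ι ι ℂ} {ζ : ι → ℂ}

theorem HW.congr {k k' : ℕ} {μ μ' : (ι → ℝ) → ℝ} {c c' : ℂ} (h : HW 𝔤 e ζ k μ c) (hk : k = k')
    (hμ : ∀ s, μ s = μ' s) (hc : c = c') : HW 𝔤 e ζ k' μ' c' := by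
  subst hk
  subst hc
  have : μ = μ' := funext hμ
  rwa [← this]

section

variable (hmul : ∀ k μ c k' μ' c', HW 𝔤 e ζ k μ c → HW 𝔤 e ζ k' μ' c' →
      HW 𝔤 e ζ (k + k') (fun s => μ s + μ' s) (c * c'))
  (hone : HW 𝔤 e ζ 0 (fun _ => 0) 1)

include hmul hone

theorem HW_pow {k : ℕ} {μ : (ι → ℝ) → ℝ} {c : ℂ} (h : HW 𝔤 e ζ k μ c) (n : ℕ) :
    HW 𝔤 e ζ (n * k) (fun s => n * μ s) (c ^ n) := by
  induction n with
  | zero => exact hone.congr (by ring) (fun s => by simp) (by simp)
  | succ n ih =>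
    exact (hmul _ _ _ _ _ _ ih h).congr (by ring) (fun s => by push_cast; ring) (by rw [pow_succ])

theorem HW_prod {α : Type} (S : Finset α) {k : α → ℕ} {μ : α → (ι → ℝ) → ℝ} {c : α → ℂ}
    (h : ∀ i ∈ S, HW 𝔤 e ζ (k i) (μ i) (c i)) :
    HW 𝔤 e ζ (∑ i ∈ S, k i) (fun s => ∑ i ∈ S, μ i s) (∏ i ∈ S, c i) := by
  classical
  induction S using Finset.induction_on with
  | empty => exact hone.congr (by simp) (fun s => by simp) (by simp)
  | insert a S ha ih =>
    have h1 := hmul _ _ _ _ _ _ (h a (Finset.mem_insert_self _ _))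
      (ih fun i hi => h i (Finset.mem_insert_of_mem hi))
    exact h1.congr (by rw [Finset.sum_insert ha]) (fun s => by rw [Finset.sum_insert ha])
      (by rw [Finset.prod_insert ha])

end

/-- a central diagonal matrix which commutes with the intertwiners of bounded degree commutes with
all intertwiners -/
theorem central (hHWM : S_HWM) (hHWE : S_HWE) (hARI : S_ARI) (hTOP : S_TOP) {ρ : ι → ℝ}
    {α : Fin r → ι → ℝ} (hA : Adapted 𝔤 ρ) (hS : Simple 𝔤 ρ r e α) {Y N : ℕ} (hY : 1 ≤ Y)
    (hL : HL 𝔤 Y) (hN : 6 * Fintype.card ι ^ 4 * Y ≤ N) (hζ0 : ∀ j, ζ j ≠ 0)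
    (hζ : diagonal ζ ∈ Ctr 𝔤)
    (hc : ∀ i j, i + j ≤ N → ∀ M, Tw 𝔤 i j M → Cm (diagonal ζ) i j M) :
    ∀ i j M, Tw 𝔤 i j M → Cm (diagonal ζ) i j M := by
  classical
  obtain ⟨top, n, hT⟩ := hTOP ι 𝔤 ρ r e α hA hS
  obtain ⟨hmul, hone, hvec, htwo⟩ := hHWM ι 𝔤 ρ r e α hA hS ζ hζ0 hζ
  have htopζ : ∀ j, ζ (top j) = ζ j := by
    intro j
    have h1 := hT.cls j _ hζ
    rwa [Matrix.diagonal_apply_eq, Matrix.diagonal_apply_eq] at h1
  choose k μ c hk hc0 hW1 hW2 using htwo
  set b := Fintype.card ι with hb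
  set K := 3 * b ^ 4 * Y with hK
  -- the relations of bounded size
  have hE : ∀ (a : ι → ℤ) (m : Fin r → ℤ),
      (∀ s : ι → ℝ, dg s ∈ 𝔤 → ∑ j, (a j : ℝ) * s (top j) = ∑ b, (m b : ℝ) * (α b ⬝ᵥ s)) →
      ∑ j, |a j| + 2 * b * ∑ b, |m b| ≤ K → ∏ j, ζ j ^ a j = 1 := by
    intro a m ham hle
    -- the four kinds of factors
    have hv : ∀ j, HW 𝔤 e ζ 1 (fun s => s (top j)) (ζ j) := fun j =>
      (hvec (top j) fun a i => hT.kill a i j).congr rfl (fun _ => rfl) (htopζ j)
    have hW1' : ∀ b, HW 𝔤 e ζ (k b + k b) (fun s => μ b s + μ b s) (c b * c b) := fun b =>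
      hmul _ _ _ _ _ _ (hW1 b) (hW1 b)
    have P1 := HW_prod hmul hone Finset.univ fun j (_ : j ∈ (Finset.univ : Finset ι)) =>
      HW_pow hmul hone (hv j) (a j).toNat
    have P2 := HW_prod hmul hone Finset.univ fun j (_ : j ∈ (Finset.univ : Finset ι)) =>
      HW_pow hmul hone (hv j) (- a j).toNat
    have Q1 := HW_prod hmul hone Finset.univ fun b (_ : b ∈ (Finset.univ : Finset (Fin r))) =>
      HW_pow hmul hone (hW2 b) (m b).toNat
    have Q2 := HW_prod hmul hone Finset.univ fun b (_ : b ∈ (Finset.univ : Finset (Fin r))) =>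
      HW_pow hmul hone (hW1' b) (m b).toNat
    have R1 := HW_prod hmul hone Finset.univ fun b (_ : b ∈ (Finset.univ : Finset (Fin r))) =>
      HW_pow hmul hone (hW1' b) (- m b).toNat
    have R2 := HW_prod hmul hone Finset.univ fun b (_ : b ∈ (Finset.univ : Finset (Fin r))) =>
      HW_pow hmul hone (hW2 b) (- m b).toNat
    have ω1 := hmul _ _ _ _ _ _ P1 (hmul _ _ _ _ _ _ Q1 R1)
    have ω2 := hmul _ _ _ _ _ _ P2 (hmul _ _ _ _ _ _ Q2 R2)
    have habs : ∀ x : ℤ, (x.toNat : ℤ) ≤ |x| ∧ ((-x).toNat : ℤ) ≤ |x| ∧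
        ((x.toNat : ℤ) + (-x).toNat = |x|) := by
      intro x
      rcases le_total 0 x with h | h
      · rw [abs_of_nonneg h]; omega
      · rw [abs_of_nonpos h]; omega
    have hdeg : ∀ (f : ι → ℕ) (g h : Fin r → ℕ), (∀ j, (f j : ℤ) ≤ |a j|) →
        (∀ b, (g b : ℤ) + h b = |m b|) →
        ∑ j, f j * 1 + (∑ b, g b * (k b + k b) + ∑ b, h b * (k b + k b)) ≤ K := by
      intro f g h hf hgh
      have h1 : (∑ j, f j : ℕ) ≤ (∑ j, |a j| : ℤ) := by
        push_cast
        exact Finset.sum_le_sum fun j _ => hf j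
      have h2 : ((∑ b, g b * (k b + k b) + ∑ b, h b * (k b + k b) : ℕ) : ℤ) ≤
          2 * b * ∑ b, |m b| := by
        rw [← Finset.sum_add_distrib]
        push_cast
        rw [Finset.mul_sum]
        refine Finset.sum_le_sum fun x _ => ?_
        have h3 := hk x
        have h4 := hgh x
        have h5 : ((k x : ℤ)) ≤ b := by exact_mod_cast h3
        have h6 : (0 : ℤ) ≤ |m x| := abs_nonneg _
        calc (g x : ℤ) * (k x + k x) + h x * (k x + k x) = (g x + h x) * (2 * k x) := by ring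
          _ = |m x| * (2 * k x) := by rw [h4]
          _ ≤ |m x| * (2 * b) := by
            apply mul_le_mul_of_nonneg_left _ h6
            linarith
          _ = 2 * b * |m x| := by ring
      simp only [mul_one]
      have h7 : ((∑ j, f j + (∑ b, g b * (k b + k b) + ∑ b, h b * (k b + k b)) : ℕ) : ℤ) ≤ K := by
        rw [Nat.cast_add]
        linarith
      exact_mod_cast h7
    have hcc := hHWE ι 𝔤 ρ r e α hA hS ζ hζ K ?_ _ _ _ _ _ _ ?_ ?_ ω1 ω2 ?_
    · -- the conclusion
      have h1 : (∏ b, (c b * c b) ^ (m b).toNat) * ∏ b, (c b * c b) ^ (- m b).toNat ≠ 0 :=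
        mul_ne_zero
          (Finset.prod_ne_zero_iff.2 fun b _ => pow_ne_zero _ (mul_ne_zero (hc0 b) (hc0 b)))
          (Finset.prod_ne_zero_iff.2 fun b _ => pow_ne_zero _ (mul_ne_zero (hc0 b) (hc0 b)))
      have h2 := mul_right_cancel₀ h1 hcc
      have h3 : ∀ j, ζ j ^ a j = ζ j ^ (a j).toNat / ζ j ^ (- a j).toNat := by
        intro j
        have h4 : a j = ((a j).toNat : ℤ) - ((- a j).toNat : ℤ) := by omega
        conv_lhs => rw [h4]
        rw [zpow_sub₀ (hζ0 j), zpow_natCast, zpow_natCast]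
      rw [Finset.prod_congr rfl fun j _ => h3 j, Finset.prod_div_distrib, h2, div_self]
      exact Finset.prod_ne_zero_iff.2 fun j _ => pow_ne_zero _ (hζ0 j)
    · intro i j hi hj M hM
      refine hc i j ?_ M hM
      calc i + j ≤ K + K := add_le_add hi hj
        _ = 6 * b ^ 4 * Y := by rw [hK]; ring
        _ ≤ N := hN
    · exact hdeg _ _ _ (fun j => (habs (a j)).1) fun b => (habs (m b)).2.2
    · exact hdeg _ _ _ (fun j => (habs (a j)).2.1) fun b => (habs (m b)).2.2
    · intro s hs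
      have h1 := ham s hs
      have h2 : ∀ x : ℤ, (x : ℝ) = (x.toNat : ℝ) - ((-x).toNat : ℝ) := by
        intro x
        have h4 : x = (x.toNat : ℤ) - ((- x).toNat : ℤ) := by omega
        have h5 := congrArg (fun y : ℤ => (y : ℝ)) h4
        push_cast at h5
        exact h5
      simp only [h2, sub_mul, Finset.sum_sub_distrib] at h1
      simp only [mul_sub, mul_add, Finset.sum_sub_distrib, Finset.sum_add_distrib]
      linarith
  -- all relations
  have hall := hARI ι 𝔤 ρ r e α top n hA hS hT Y K hY hL le_rfl ζ hζ0 ?_ hE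
  · intro i j M hM
    unfold Cm
    rw [TP_diagonal, TP_diagonal]
    ext J' J
    rw [Matrix.diagonal_mul, Matrix.mul_diagonal]
    by_cases hM0 : M J' J = 0
    · rw [hM0, mul_zero, zero_mul]
    -- the weights
    have hw : ∀ s : ι → ℝ, dg s ∈ 𝔤 → ∑ x, s (J' x) = ∑ x, s (J x) := by
      intro s hs
      have h1 := hM _ hs
      rw [dg, dTP_diagonal, dTP_diagonal] at h1
      have h2 := congrFun (congrFun h1 J') J
      rw [Matrix.diagonal_mul, Matrix.mul_diagonal, mul_comm] at h2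
      have h3 := mul_left_cancel₀ hM0 h2
      exact_mod_cast h3
    have hcount : ∀ (p : ℕ) (J : Fin p → ι) (f : ι → ℝ),
        ∑ j, ((Finset.univ.filter fun x => J x = j).card : ℝ) * f j = ∑ x, f (J x) := by
      intro p J f
      have h1 : ∀ j, ((Finset.univ.filter fun x => J x = j).card : ℝ) * f j =
          ∑ x ∈ Finset.univ.filter (fun x => J x = j), f (J x) := by
        intro j
        rw [Finset.sum_congr rfl fun x hx => by rw [(Finset.mem_filter.1 hx).2], Finset.sum_const,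
          nsmul_eq_mul]
      simp only [h1]
      exact (Finset.sum_fiberwise (s := Finset.univ) (g := J) (f := fun x => f (J x)))
    have hprod : ∀ (p : ℕ) (J : Fin p → ι),
        ∏ j, ζ j ^ (Finset.univ.filter fun x => J x = j).card = ∏ x, ζ (J x) := by
      intro p J
      have h1 : ∀ j, ζ j ^ (Finset.univ.filter fun x => J x = j).card =
          ∏ x ∈ Finset.univ.filter (fun x => J x = j), ζ (J x) := by
        intro j
        rw [Finset.prod_congr rfl fun x hx => by rw [(Finset.mem_filter.1 hx).2], Finset.prod_const]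
      simp only [h1]
      exact (Finset.prod_fiberwise (s := Finset.univ) (g := J) (f := fun x => ζ (J x)))
    have key := hall (fun j => ((Finset.univ.filter fun x => J' x = j).card : ℤ) -
      ((Finset.univ.filter fun x => J x = j).card : ℤ))
      (fun b => (∑ x, (n (J' x) b : ℤ)) - ∑ x, (n (J x) b : ℤ)) ?_
    · have h1 : ∀ j, ζ j ^ (((Finset.univ.filter fun x => J' x = j).card : ℤ) -
          ((Finset.univ.filter fun x => J x = j).card : ℤ)) =
          ζ j ^ (Finset.univ.filter fun x => J' x = j).card /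
            ζ j ^ (Finset.univ.filter fun x => J x = j).card := by
        intro j
        rw [zpow_sub₀ (hζ0 j), zpow_natCast, zpow_natCast]
      simp only [h1] at key
      rw [Finset.prod_div_distrib, hprod, hprod, div_eq_one_iff_eq] at key
      · rw [key, mul_comm]
      · exact Finset.prod_ne_zero_iff.2 fun x _ => hζ0 _
    · intro s hs
      have h1 : ∀ j, s (top j) = s j + ∑ b, (n j b : ℝ) * (α b ⬝ᵥ s) := by
        intro j
        have := hT.chain j s hs
        linarith
      push_cast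
      simp only [sub_mul, Finset.sum_sub_distrib]
      rw [hcount _ J' fun j => s (top j), hcount _ J fun j => s (top j)]
      simp only [h1, Finset.sum_add_distrib]
      rw [hw s hs, Finset.sum_comm (f := fun x b => (n (J' x) b : ℝ) * (α b ⬝ᵥ s)),
        Finset.sum_comm (f := fun x b => (n (J x) b : ℝ) * (α b ⬝ᵥ s))]
      simp only [Finset.sum_mul]
      ring
  · intro j j' hjj'
    have h1 := hjj' _ hζ
    rwa [Matrix.diagonal_apply_eq, Matrix.diagonal_apply_eq] at h1

end Pool.Agent.Q271.ZG
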