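import Mathlib
import Pool.Agent.Q271.ZG.Lat
import Pool.Agent.Q271.ZG.Conj

/-!
# Project ZG: unitary matrices which commute with the intertwiners of bounded degree
-/

set_option autoImplicit false
set_option linter.unusedSectionVars false

namespace Pool.Agent.Q271.ZG

open Matrix Pool.Agent.Q60.ED

variable {ι : Type} [Fintype ι] [DecidableEq ι] {𝔤 : Submodule ℂ (Matrix ι ι ℂ)}

/-! ### matrices which commute with intertwiners -/

theorem Cm.one {i j : ℕ} (M : Matrix (Fin j → ι) (Fin i → ι) ℂ) : Cm (1 : Matrix ι ι ℂ) i j M := by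
  rw [Cm, TP_one, TP_one, Matrix.one_mul, Matrix.mul_one]

theorem Cm.mul {g h : Matrix ι ι ℂ} {i j : ℕ} {M : Matrix (Fin j → ι) (Fin i → ι) ℂ}
    (hg : Cm g i j M) (hh : Cm h i j M) : Cm (g * h) i j M := by
  unfold Cm at *
  rw [TP_mul, TP_mul, Matrix.mul_assoc, hh, ← Matrix.mul_assoc, hg, Matrix.mul_assoc]

theorem Cm.inv {g g' : Matrix ι ι ℂ} (h : g * g' = 1) {i j : ℕ}
    {M : Matrix (Fin j → ι) (Fin i → ι) ℂ} (hg : Cm g i j M) : Cm g' i j M := by
  have h' := inv_swap h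
  unfold Cm at *
  calc TP g' j * M = TP g' j * M * (TP g i * TP g' i) := by rw [TP_inv h, Matrix.mul_one]
    _ = TP g' j * (M * TP g i) * TP g' i := by simp only [Matrix.mul_assoc]
    _ = (TP g' j * TP g j) * M * TP g' i := by rw [← hg]; simp only [Matrix.mul_assoc]
    _ = _ := by rw [TP_inv h', Matrix.one_mul]

/-- the exponentials of the elements of `𝔤` commute with the intertwiners -/
theorem exp_comm {m n : Type} [Fintype m] [DecidableEq m] [Fintype n] [DecidableEq n]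
    {A : Matrix m m ℂ} {B : Matrix n n ℂ} {M : Matrix m n ℂ} (h : A * M = M * B) :
    NormedSpace.exp A * M = M * NormedSpace.exp B := by
  have hp : ∀ k : ℕ, A ^ k * M = M * B ^ k := by
    intro k
    induction k with
    | zero => rw [pow_zero, pow_zero, Matrix.one_mul, Matrix.mul_one]
    | succ k ih =>
      rw [pow_succ, Matrix.mul_assoc, h, ← Matrix.mul_assoc, ih, Matrix.mul_assoc, ← pow_succ]
  have hA : HasSum (fun k : ℕ => ((k.factorial : ℂ)⁻¹) • A ^ k) (NormedSpace.exp A) := by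
    open scoped Matrix.Norms.Operator in
    exact NormedSpace.exp_series_hasSum_exp' (𝕂 := ℂ) A
  have hB : HasSum (fun k : ℕ => ((k.factorial : ℂ)⁻¹) • B ^ k) (NormedSpace.exp B) := by
    open scoped Matrix.Norms.Operator in
    exact NormedSpace.exp_series_hasSum_exp' (𝕂 := ℂ) B
  let φ : Matrix m m ℂ →+ Matrix m n ℂ :=
    { toFun := fun X => X * M
      map_zero' := Matrix.zero_mul M
      map_add' := fun X Y => Matrix.add_mul X Y M }
  let ψ : Matrix n n ℂ →+ Matrix m n ℂ :=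
    { toFun := fun X => M * X
      map_zero' := Matrix.mul_zero M
      map_add' := fun X Y => Matrix.mul_add M X Y }
  have hφ : Continuous φ := Continuous.matrix_mul continuous_id continuous_const
  have hψ : Continuous ψ := Continuous.matrix_mul continuous_const continuous_id
  have h1 := hA.map φ hφ
  have h2 := hB.map ψ hψ
  have h3 : (φ ∘ fun k : ℕ => ((k.factorial : ℂ)⁻¹) • A ^ k) =
      ψ ∘ fun k : ℕ => ((k.factorial : ℂ)⁻¹) • B ^ k := by
    funext k
    change (((k.factorial : ℂ)⁻¹) • A ^ k) * M = M * (((k.factorial : ℂ)⁻¹) • B ^ k)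
    rw [Matrix.smul_mul, Matrix.mul_smul, hp]
  rw [h3] at h1
  exact h1.unique h2

theorem Cm.exp {z : Matrix ι ι ℂ} (hz : z ∈ 𝔤) {i j : ℕ}
    {M : Matrix (Fin j → ι) (Fin i → ι) ℂ} (hM : Tw 𝔤 i j M) : Cm (NormedSpace.exp z) i j M := by
  rw [Cm, TP_exp, TP_exp]
  exact exp_comm (hM z hz)

theorem Cm.edg {s : ι → ℝ} (hs : dg s ∈ 𝔤) {i j : ℕ}
    {M : Matrix (Fin j → ι) (Fin i → ι) ℂ} (hM : Tw 𝔤 i j M) : Cm (edg s) i j M := by
  have h1 := hM _ hs
  rw [Cm, ZG.edg, TP_diagonal, TP_diagonal]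
  ext J' J
  rw [Matrix.diagonal_mul, Matrix.mul_diagonal]
  by_cases hM0 : M J' J = 0
  · rw [hM0, mul_zero, zero_mul]
  rw [dg, dTP_diagonal, dTP_diagonal] at h1
  have h2 := congrFun (congrFun h1 J') J
  rw [Matrix.diagonal_mul, Matrix.mul_diagonal, mul_comm] at h2
  have h3 := mul_left_cancel₀ hM0 h2
  have h4 : ∏ k, Complex.exp (Complex.I * s (J' k)) = ∏ k, Complex.exp (Complex.I * s (J k)) := by
    rw [← Complex.exp_sum, ← Complex.exp_sum, ← Finset.mul_sum, ← Finset.mul_sum, h3]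
  rw [h4, mul_comm]

theorem edg_unit (s : ι → ℝ) : edg s * (edg s)ᴴ = 1 ∧ edg s * edg (fun j => - s j) = 1 := by
  have h1 : ∀ j, Complex.exp (Complex.I * s j) * Complex.exp (Complex.I * ((- s j : ℝ) : ℂ)) = 1 := by
    intro j
    rw [← Complex.exp_add, Complex.ofReal_neg, ← mul_add, add_neg_cancel, mul_zero,
      Complex.exp_zero]
  have h2 : (edg s)ᴴ = edg fun j => - s j := by
    rw [edg, Matrix.diagonal_conjTranspose, edg]
    congr 1
    funext j
    rw [Pi.star_apply, Complex.star_def, ← Complex.exp_conj, map_mul, Complex.conj_I,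
      Complex.conj_ofReal, Complex.ofReal_neg]
    congr 1
    ring
  have h3 : edg s * edg (fun j => - s j) = 1 := by
    rw [edg, edg, Matrix.diagonal_mul_diagonal, ← Matrix.diagonal_one]
    congr 1
    funext j
    exact h1 j
  exact ⟨by rw [h2, h3], h3⟩

/-! ### degree one -/

theorem dTP_eq_pos (x : Matrix ι ι ℂ) : dTP x 1 = pos 0 x := by
  rw [dTP_eq_sum, Fin.sum_univ_one]

theorem TP_eq_pos (x : Matrix ι ι ℂ) : TP x 1 = pos 0 x := by
  ext I J
  rw [TP_apply, Fin.prod_univ_one, pos_apply, if_pos]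
  intro l hl
  exact absurd (Subsingleton.elim l 0) hl

theorem pos_inj {x y : Matrix ι ι ℂ} (h : pos (0 : Fin 1) x = pos 0 y) : x = y := by
  ext a b
  have h1 := congrFun (congrFun h fun _ => a) fun _ => b
  rw [pos_apply, pos_apply, if_pos, if_pos] at h1
  · exact h1
  all_goals exact fun l hl => absurd (Subsingleton.elim l 0) hl

theorem tw_one {c : Matrix ι ι ℂ} (hc : ∀ x ∈ 𝔤, c * x = x * c) : Tw 𝔤 1 1 (pos 0 c) := by
  intro x hx
  rw [dTP_eq_pos, ← pos_mul, ← pos_mul, hc x hx]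

theorem cm_one {g c : Matrix ι ι ℂ} (h : Cm g 1 1 (pos 0 c)) : g * c = c * g := by
  rw [Cm, TP_eq_pos, ← pos_mul, ← pos_mul] at h
  exact pos_inj h

/-! ### the compact group -/

theorem continuous_TP (n : ℕ) : Continuous fun g : Matrix ι ι ℂ => TP g n := by
  refine continuous_matrix fun I J => ?_
  simp only [TP_apply]
  exact continuous_finsetProd _ fun k _ => continuous_id.matrix_elem _ _

theorem compact_K (𝔤 : Submodule ℂ (Matrix ι ι ℂ)) :
    IsCompact {k : Matrix ι ι ℂ | k * kᴴ = 1 ∧ ∀ i j M, Tw 𝔤 i j M → Cm k i j M} := by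
  have hB : IsCompact (X := Matrix ι ι ℂ) (Set.pi Set.univ fun _ : ι => Set.pi Set.univ fun _ : ι =>
        Metric.closedBall (0 : ℂ) 1) :=
    isCompact_univ_pi fun _ => isCompact_univ_pi fun _ => isCompact_closedBall _ _
  refine hB.of_isClosed_subset ?_ ?_
  · refine IsClosed.inter ?_ ?_
    · exact isClosed_eq (continuous_id.matrix_mul continuous_id.matrix_conjTranspose)
        continuous_const
    · have h2 : {k : Matrix ι ι ℂ | ∀ i j M, Tw 𝔤 i j M → Cm k i j M} =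
          ⋂ (i : ℕ) (j : ℕ) (M : Matrix (Fin j → ι) (Fin i → ι) ℂ) (_ : Tw 𝔤 i j M),
            {k | TP k j * M = M * TP k i} := by
        ext k
        simp only [Set.mem_iInter]
        rfl
      rw [show (fun k : Matrix ι ι ℂ => ∀ i j M, Tw 𝔤 i j M → Cm k i j M) =
        {k : Matrix ι ι ℂ | ∀ i j M, Tw 𝔤 i j M → Cm k i j M} from rfl, h2]
      refine isClosed_iInter fun i => isClosed_iInter fun j => isClosed_iInter fun M =>
        isClosed_iInter fun _ => ?_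
      exact isClosed_eq ((continuous_TP j).matrix_mul continuous_const)
        (continuous_const.matrix_mul (continuous_TP i))
  · rintro k ⟨hk, -⟩ i - j -
    rw [Metric.mem_closedBall, dist_zero_right]
    have h1 := congrFun (congrFun hk i) i
    rw [Matrix.mul_apply, Matrix.one_apply_eq] at h1
    have h2 : ∑ l, ‖k i l‖ ^ 2 = 1 := by
      have h3 : ∀ l, k i l * kᴴ l i = ((‖k i l‖ ^ 2 : ℝ) : ℂ) := by
        intro l
        rw [Matrix.conjTranspose_apply, Complex.star_def, Complex.mul_conj, Complex.normSq_eq_norm_sq]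
      simp only [h3] at h1
      exact_mod_cast h1
    have h3 : ‖k i j‖ ^ 2 ≤ 1 := by
      rw [← h2]
      exact Finset.single_le_sum (f := fun l => ‖k i l‖ ^ 2) (fun l _ => by positivity)
        (Finset.mem_univ j)
    nlinarith [norm_nonneg (k i j)]

theorem conjH {a b : Matrix ι ι ℂ} (hb : bᴴ = b) : (a * b * aᴴ)ᴴ = a * b * aᴴ := by
  rw [conjTranspose_mul, conjTranspose_mul, conjTranspose_conjTranspose, hb, Matrix.mul_assoc]

theorem exp_unit {z : Matrix ι ι ℂ} (hz : zᴴ = -z) (s : ℝ) :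
    NormedSpace.exp (s • z) * (NormedSpace.exp (s • z))ᴴ = 1 := by
  rw [← Matrix.exp_conjTranspose]
  have h1 : (s • z)ᴴ = -(s • z) := by
    rw [Matrix.conjTranspose_smul, hz, smul_neg]
    simp
  rw [h1, Matrix.exp_neg]
  exact Matrix.mul_nonsing_inv _ ((Matrix.isUnit_iff_isUnit_det _).1 (Matrix.isUnit_exp _))

/-! ### the theorem in adapted coordinates -/

theorem core_adapted (hOPT : S_OPT) (hCAS : S_CAS) (hFLAG : S_FLAG) (hROOT : S_ROOT)
    (hROT : S_ROT) (hHWM : S_HWM) (hHWE : S_HWE) (hARI : S_ARI) (hTOP : S_TOP) {ρ : ι → ℝ}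
    (hA : Adapted 𝔤 ρ) (hb : 1 ≤ Fintype.card ι) {Y N : ℕ} (hY : 1 ≤ Y)
    (hL : HL 𝔤 Y) (hN : 6 * Fintype.card ι ^ 4 * Y ≤ N) {u : Matrix ι ι ℂ} (hu : u * uᴴ = 1)
    (hc : ∀ i j, i + j ≤ N → ∀ M, Tw 𝔤 i j M → Cm u i j M) :
    ∀ i j M, Tw 𝔤 i j M → Cm u i j M := by
  classical
  set b := Fintype.card ι with hbdef
  have hN2 : 6 * b ≤ N := by
    have h1 : b ≤ b ^ 4 := by
      calc b = b ^ 1 := (pow_one b).symm
        _ ≤ b ^ 4 := Nat.pow_le_pow_right hb (by norm_num)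
    calc 6 * b ≤ 6 * b ^ 4 * 1 := by omega
      _ ≤ 6 * b ^ 4 * Y := Nat.mul_le_mul_left _ hY
      _ ≤ N := hN
  have hdgH : ∀ s : ι → ℝ, (dg s)ᴴ = dg s := by
    intro s
    rw [dg, Matrix.diagonal_conjTranspose]
    congr 1
    funext j
    rw [Pi.star_apply, Complex.star_def, Complex.conj_ofReal]
  have hXH : (u * dg ρ * uᴴ)ᴴ = u * dg ρ * uᴴ := conjH (hdgH ρ)
  obtain ⟨k, ⟨hk1, hk2⟩, hopt1, hopt2⟩ := hOPT ι _ {z | z ∈ 𝔤 ∧ zᴴ = -z} (u * dg ρ * uᴴ) (dg ρ)
    (compact_K 𝔤) ⟨by rw [conjTranspose_one, Matrix.mul_one], fun i j M _ => Cm.one M⟩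
    (fun k hk => hk.1)
    (fun k hk l hl => ⟨by
      rw [conjTranspose_mul, Matrix.mul_assoc, ← Matrix.mul_assoc l, hl.1, Matrix.one_mul, hk.1],
      fun i j M hM => (hk.2 i j M hM).mul (hl.2 i j M hM)⟩)
    (fun z hz => ⟨hz.2, fun s => ⟨exp_unit hz.2 s, fun i j M hM => Cm.exp
      (𝔤 := 𝔤) (by rw [← Complex.coe_smul]; exact 𝔤.smul_mem _ hz.1) hM⟩⟩) hXH (hdgH ρ)
  set v := k * u with hv
  have hX' : k * (u * dg ρ * uᴴ) * kᴴ = v * dg ρ * vᴴ := by
    rw [hv, conjTranspose_mul]; simp only [Matrix.mul_assoc]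
  simp only [hX'] at hopt1 hopt2
  have hv1 : v * vᴴ = 1 := by
    rw [hv, conjTranspose_mul, Matrix.mul_assoc, ← Matrix.mul_assoc u, hu, Matrix.one_mul, hk1]
  have hv2 : vᴴ * v = 1 := inv_swap hv1
  have hvc : ∀ i j, i + j ≤ N → ∀ M, Tw 𝔤 i j M → Cm v i j M := fun i j hij M hM =>
    (hk2 i j M hM).mul (hc i j hij M hM)
  have hvn : ∀ x ∈ 𝔤, v * x * vᴴ ∈ 𝔤 := hCAS ι 𝔤 hA.star hA.lie v hv1 fun M hM =>
    hvc 2 2 (by omega) M hM
  have hvn' : ∀ x ∈ 𝔤, vᴴ * x * v ∈ 𝔤 := by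
    have h1 := hCAS ι 𝔤 hA.star hA.lie vᴴ (by rw [conjTranspose_conjTranspose, hv2]) fun M hM =>
      (hvc 2 2 (by omega) M hM).inv hv1
    rw [conjTranspose_conjTranspose] at h1
    exact h1
  -- the conjugate commutes with `ρ`
  set X' := v * dg ρ * vᴴ with hX'def
  have hX'm : X' ∈ 𝔤 := hvn _ hA.mem
  have hX'H : X'ᴴ = X' := conjH (hdgH ρ)
  clear_value X'
  have hcomm : X' * dg ρ = dg ρ * X' := by
    have hz : (X' * dg ρ - dg ρ * X') ∈ 𝔤 := hA.lie _ hX'm _ hA.mem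
    have hzH : (X' * dg ρ - dg ρ * X')ᴴ = -(X' * dg ρ - dg ρ * X') := by
      rw [conjTranspose_sub, conjTranspose_mul, conjTranspose_mul, hX'H, hdgH, neg_sub]
    have h1 := hopt1 _ ⟨hz, hzH⟩
    set z := X' * dg ρ - dg ρ * X' with hzdef
    have h2 : ((z * X' - X' * z) * dg ρ).trace = (z * z).trace := by
      rw [Matrix.sub_mul, Matrix.trace_sub, Matrix.mul_assoc X', Matrix.trace_mul_comm X',
        Matrix.mul_assoc z, Matrix.mul_assoc z, ← Matrix.trace_sub, ← Matrix.mul_sub]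
    have h3 : (zᴴ * z).trace = 0 := by
      rw [hzH, Matrix.neg_mul, Matrix.trace_neg, ← h2, h1, neg_zero]
    have h4 : z = 0 := by
      open scoped ComplexOrder in
      exact Matrix.trace_conjTranspose_mul_self_eq_zero_iff.1 h3
    exact sub_eq_zero.1 h4
  have hflag := hFLAG ι 𝔤 ρ hA v hv1 hvn hvn' (fun m hm M hM => hvc m m (by omega) M hM)
    (by rw [← hX'def]; exact hcomm) fun z hz hzH => by rw [← hX'def]; exact hopt2 z ⟨hz, hzH⟩
  obtain ⟨r, e, α, hS⟩ := hROOT ι 𝔤 ρ hA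
  obtain ⟨s, hs, hw⟩ := hROT ι 𝔤 ρ r e α hA hS v hv1 hflag hvn
  set w := v * edg s with hwdef
  have hwc : ∀ i j, i + j ≤ N → ∀ M, Tw 𝔤 i j M → Cm w i j M := fun i j hij M hM =>
    (hvc i j hij M hM).mul (Cm.edg hs hM)
  have hwctr : w ∈ Ctr 𝔤 := ⟨hw, fun c hc' => cm_one (hwc 1 1 (by omega) _ (tw_one hc'))⟩
  have hwd : w = diagonal fun j => w j j := by
    ext i j
    by_cases hij : i = j
    · subst hij; rw [Matrix.diagonal_apply_eq]
    · rw [Matrix.diagonal_apply_ne _ hij, hA.ctr w hwctr i j hij]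
  have hwu : w * wᴴ = 1 := by
    rw [hwdef, conjTranspose_mul, Matrix.mul_assoc, ← Matrix.mul_assoc (edg s), (edg_unit s).1,
      Matrix.one_mul, hv1]
  have hw0 : ∀ j, w j j ≠ 0 := by
    intro j h0
    have h1 := congrFun (congrFun hwu j) j
    rw [hwd, Matrix.diagonal_conjTranspose, Matrix.diagonal_mul_diagonal, Matrix.diagonal_apply_eq,
      Matrix.one_apply_eq, h0, zero_mul] at h1
    exact zero_ne_one h1
  have hall := central (𝔤 := 𝔤) (ζ := fun j => w j j) hHWM hHWE hARI hTOP hA hS hY hL hN hw0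
    (by rw [← hwd]; exact hwctr) (by rw [← hwd]; exact hwc)
  rw [← hwd] at hall
  -- back to `u`
  intro i j M hM
  have h1 : u = kᴴ * w * edg fun j => - s j := by
    rw [hwdef, Matrix.mul_assoc, Matrix.mul_assoc v, (edg_unit s).2, Matrix.mul_one, hv,
      ← Matrix.mul_assoc, inv_swap hk1, Matrix.one_mul]
  rw [h1]
  refine (((hk2 i j M hM).inv hk1).mul (hall i j M hM)).mul (Cm.edg (𝔤 := 𝔤) ?_ hM)
  have h2 : dg (fun j => - s j) = - dg s := by
    rw [dg, dg, Matrix.diagonal_neg]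
    congr 1
    funext j
    rw [Complex.ofReal_neg]
  rw [h2]
  exact 𝔤.neg_mem hs

/-- **Unitary matrices which commute with the intertwiners of bounded degree commute with all
intertwiners.** -/
theorem core (hADAPT : S_ADAPT) (hOPT : S_OPT) (hCAS : S_CAS) (hFLAG : S_FLAG) (hROOT : S_ROOT)
    (hROT : S_ROT) (hHWM : S_HWM) (hHWE : S_HWE) (hARI : S_ARI) (hTOP : S_TOP)
    (hs : IsStar 𝔤) (hl : IsLie 𝔤) (hb : 1 ≤ Fintype.card ι) {Y N : ℕ} (hY : 1 ≤ Y)
    (hL : HL 𝔤 Y) (hN : 6 * Fintype.card ι ^ 4 * Y ≤ N) {u : Matrix ι ι ℂ} (hu : u * uᴴ = 1)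
    (hc : ∀ i j, i + j ≤ N → ∀ M, Tw 𝔤 i j M → Cm u i j M) :
    ∀ i j M, Tw 𝔤 i j M → Cm u i j M := by
  obtain ⟨U, ρ, hU, hA⟩ := hADAPT ι 𝔤 hs hl
  have hU' : Uᴴ * U = 1 := inv_swap hU
  have key := core_adapted hOPT hCAS hFLAG hROOT hROT hHWM hHWE hARI hTOP hA hb hY (hl_cj hU hL) hN
    (u := U * u * Uᴴ) ?_ ?_
  · intro i j M hM
    have h1 := key i j (TP U j * M * TP Uᴴ i) ((tw_cj hU).2 (by rwa [tw_back hU]))
    rw [cm_cj hU, tw_back hU] at h1
    exact h1
  · rw [conjTranspose_mul, conjTranspose_mul, conjTranspose_conjTranspose,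
      ← Matrix.mul_assoc U, cj_mul hU, hu, Matrix.mul_one, hU]
  · intro i j hij M hM
    rw [cm_cj hU]
    exact hc i j hij _ ((tw_cj hU).1 hM)

end Pool.Agent.Q271.ZG
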