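import Mathlib
import Pool.Agent.Q271.ZG.Core
import Pool.Agent.Q271.ZG.Stm2

/-!
# Project ZG: matrices which fix the invariant rational tensors of bounded degree
-/

set_option autoImplicit false
set_option linter.unusedSectionVars false

namespace Pool.Agent.Q271.ZG

open Matrix Pool.Agent.Q60.ED

variable {ι : Type} [Fintype ι] [DecidableEq ι]

theorem pos_transpose {n : ℕ} (k : Fin n) (x : Matrix ι ι ℂ) : pos k xᵀ = (pos k x)ᵀ := by
  ext I J
  rw [Matrix.transpose_apply, pos_apply, pos_apply]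
  have h3 : (∀ l, l ≠ k → I l = J l) ↔ (∀ l, l ≠ k → J l = I l) :=
    ⟨fun h l hl => (h l hl).symm, fun h l hl => (h l hl).symm⟩
  simp only [h3]
  split_ifs <;> rfl

theorem dTP_transpose (x : Matrix ι ι ℂ) (n : ℕ) : dTP xᵀ n = (dTP x n)ᵀ := by
  simp only [dTP_eq_sum, pos_transpose, Matrix.transpose_sum]

/-- the tensor of a matrix and derivations -/
theorem dTP_tenM (x : Matrix ι ι ℂ) {j i : ℕ} (N : Matrix (Fin j → ι) (Fin i → ι) ℂ) :
    dTP x (j + i) *ᵥ tenM N = tenM (dTP x j * N + N * (dTP x i)ᵀ) := by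
  funext L
  rw [dTP_mulVec, Fin.sum_univ_add, tenM, Matrix.add_apply]
  congr 1
  · have h1 : (dTP x j * N) (fun k => L (Fin.castAdd i k)) (fun k => L (Fin.natAdd j k)) =
        (dTP x j *ᵥ fun I => N I fun k => L (Fin.natAdd j k)) fun k => L (Fin.castAdd i k) := by
      rw [Matrix.mul_apply, Matrix.mulVec, dotProduct]
    rw [h1, dTP_mulVec]
    refine Finset.sum_congr rfl fun k _ => Finset.sum_congr rfl fun a _ => ?_
    congr 1
    rw [tenM]
    have e1 : (fun l => Function.update L (Fin.castAdd i k) a (Fin.castAdd i l)) =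
        Function.update (fun l => L (Fin.castAdd i l)) k a := by
      funext l
      by_cases hl : l = k
      · subst hl; rw [Function.update_self, Function.update_self]
      · rw [Function.update_of_ne hl, Function.update_of_ne]
        intro h
        exact hl (Fin.castAdd_injective j i h)
    have e2 : (fun l => Function.update L (Fin.castAdd i k) a (Fin.natAdd j l)) =
        fun l => L (Fin.natAdd j l) := by
      funext l
      rw [Function.update_of_ne]
      intro h
      have := congrArg Fin.val h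
      simp only [Fin.val_natAdd, Fin.val_castAdd] at this
      omega
    rw [e1, e2]
  · have h1 : (N * (dTP x i)ᵀ) (fun k => L (Fin.castAdd i k)) (fun k => L (Fin.natAdd j k)) =
        (dTP x i *ᵥ fun J => N (fun k => L (Fin.castAdd i k)) J) fun k => L (Fin.natAdd j k) := by
      rw [Matrix.mul_apply, Matrix.mulVec, dotProduct]
      refine Finset.sum_congr rfl fun J _ => ?_
      rw [Matrix.transpose_apply, mul_comm]
    rw [h1, dTP_mulVec]
    refine Finset.sum_congr rfl fun k _ => Finset.sum_congr rfl fun a _ => ?_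
    congr 1
    rw [tenM]
    have e1 : (fun l => Function.update L (Fin.natAdd j k) a (Fin.natAdd j l)) =
        Function.update (fun l => L (Fin.natAdd j l)) k a := by
      funext l
      by_cases hl : l = k
      · subst hl; rw [Function.update_self, Function.update_self]
      · rw [Function.update_of_ne hl, Function.update_of_ne]
        intro h
        exact hl (Fin.natAdd_injective i j h)
    have e2 : (fun l => Function.update L (Fin.natAdd j k) a (Fin.castAdd i l)) =
        fun l => L (Fin.castAdd i l) := by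
      funext l
      rw [Function.update_of_ne]
      intro h
      have := congrArg Fin.val h
      simp only [Fin.val_natAdd, Fin.val_castAdd] at this
      omega
    rw [e1, e2]

theorem dTP_form {x Ω : Matrix ι ι ℂ} (h : x * Ω + Ω * xᵀ = 0) (i : ℕ) :
    dTP x i * TP Ω i + TP Ω i * (dTP x i)ᵀ = 0 := by
  rw [← dTP_transpose, dTP_eq_sum, dTP_eq_sum, Finset.sum_mul, Finset.mul_sum,
    ← Finset.sum_add_distrib]
  refine Finset.sum_eq_zero fun k _ => ?_
  ext I J
  rw [Matrix.add_apply, pos_mul_TP, TP_mul_pos, ← mul_add, ← Matrix.add_apply, h,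
    Matrix.zero_apply, Matrix.zero_apply, mul_zero]

theorem mat2_dTP (x : Matrix ι ι ℂ) (Ω : (Fin 2 → ι) → ℂ) :
    mat2 (dTP x 2 *ᵥ Ω) = x * mat2 Ω + mat2 Ω * xᵀ := by
  ext a b
  rw [mat2, Matrix.of_apply, dTP_mulVec, Fin.sum_univ_two, Matrix.add_apply, Matrix.mul_apply,
    Matrix.mul_apply]
  congr 1
  · refine Finset.sum_congr rfl fun c _ => ?_
    rw [mat2, Matrix.of_apply]
    congr 2
    funext l
    fin_cases l <;> simp [Function.update]
  · refine Finset.sum_congr rfl fun c _ => ?_
    rw [mat2, Matrix.of_apply, Matrix.transpose_apply, mul_comm]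
    congr 2
    funext l
    fin_cases l <;> simp [Function.update]

theorem dTP_deg_zero (x : Matrix ι ι ℂ) : dTP x 0 = 0 := by
  rw [dTP_eq_sum, Fin.sum_univ_zero]

theorem TP_deg_zero (x : Matrix ι ι ℂ) : TP x 0 = 1 := by
  ext I J
  rw [TP_apply, Fin.prod_univ_zero, Subsingleton.elim I J, Matrix.one_apply_eq]

/-- **A matrix which fixes the invariant rational tensors of bounded degree fixes all invariant
rational tensors.** -/
theorem fix_of_HL (hADAPT : S_ADAPT) (hOPT : S_OPT) (hCAS : S_CAS) (hFLAG : S_FLAG)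
    (hROOT : S_ROOT) (hROT : S_ROT) (hHWM : S_HWM) (hHWE : S_HWE) (hARI : S_ARI) (hTOP : S_TOP)
    (hPOL : S_POL) (hSTAR : S_STAR) (hINV : S_INV) (V : PHS ι)
    (hb : 1 ≤ Fintype.card ι) {Y N : ℕ} (hY : 1 ≤ Y) (hL : HL (hLie V) Y)
    (hN : 6 * Fintype.card ι ^ 4 * Y ≤ N) {h : Matrix ι ι ℂ}
    (hh : ∀ m ≤ N, ∀ t ∈ V.T m, tpow h m (cx t) = cx t) {n : ℕ} {t : (Fin n → ι) → ℚ}
    (ht : t ∈ V.T n) : tpow h n (cx t) = cx t := by
  have hN2 : 6 ≤ N := by
    calc 6 = 6 * 1 ^ 4 * 1 := by norm_num
      _ ≤ 6 * Fintype.card ι ^ 4 * Y :=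
        Nat.mul_le_mul (Nat.mul_le_mul_left _ (Nat.pow_le_pow_left hb 4)) hY
      _ ≤ N := hN
  -- the matrix preserves the polarisation
  have hOm : h * qc V.Q⁻¹ * h.transpose = qc V.Q⁻¹ := by
    have h1 := hh 2 (by omega) _ (PHS.Om_mem (V := V))
    rw [← PHS.mat2_Om, ← tpow_two, h1]
  have hOdet : (qc V.Q⁻¹).det ≠ 0 := by
    rw [qc_inv PHS.qc_det]
    intro h0
    have h1 := congrArg Matrix.det
      (Matrix.mul_nonsing_inv (qc V.Q) (isUnit_iff_ne_zero.2 (PHS.qc_det (V := V))))
    rw [Matrix.det_mul, h0, mul_zero, Matrix.det_one] at h1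
    exact zero_ne_one h1
  have hdet : h.det ≠ 0 := by
    intro h0
    have h1 := congrArg Matrix.det hOm
    rw [Matrix.det_mul, Matrix.det_mul, h0, zero_mul, zero_mul] at h1
    exact hOdet h1.symm
  -- the Lie algebra preserves the polarisation
  have hlie : ∀ x ∈ hLie V, x * qc V.Q⁻¹ + qc V.Q⁻¹ * xᵀ = 0 := by
    intro x hx
    have h1 := (hINV ι V 2).1 _ (PHS.Om_mem (V := V)) x hx
    rw [← PHS.mat2_Om, ← mat2_dTP, h1]
    ext a b
    rfl
  -- commutation with the intertwiners of bounded degree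
  have hcm : ∀ i j, i + j ≤ N → ∀ M, Tw (hLie V) i j M → Cm h i j M := by
    intro i j hij M hM
    have h1 := (inv_iff hdet hOdet hOm M).1 ?_
    · exact h1
    have h2 : tenM (M * TP (qc V.Q⁻¹) i) ∈
        Submodule.span ℂ (cx '' (V.T (j + i) : Set ((Fin (j + i) → ι) → ℚ))) := by
      apply (hINV ι V (j + i)).2
      intro x hx
      rw [dTP_tenM, ← Matrix.mul_assoc, hM x hx, Matrix.mul_assoc M, Matrix.mul_assoc M,
        ← Matrix.mul_add, dTP_form (hlie x hx), Matrix.mul_zero]
      funext L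
      rfl
    refine Submodule.span_induction (p := fun u _ => tpow h (j + i) u = u) ?_ (map_zero _)
      (fun a b _ _ ha hb => by rw [map_add, ha, hb]) (fun c a _ ha => by rw [map_smul, ha]) h2
    rintro _ ⟨u, hu, rfl⟩
    exact hh _ (by omega) u hu
  -- in star-stable coordinates
  obtain ⟨B, B', hB, hstar, hlieB⟩ := hSTAR ι V
  have hdetB : (B * h * B').det ≠ 0 := by
    rw [Matrix.det_mul, Matrix.det_mul]
    have h1 := congrArg Matrix.det hB
    rw [Matrix.det_mul, Matrix.det_one] at h1
    have h2 : B.det ≠ 0 := left_ne_zero_of_mul (h1 ▸ one_ne_zero)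
    have h3 : B'.det ≠ 0 := right_ne_zero_of_mul (h1 ▸ one_ne_zero)
    exact mul_ne_zero (mul_ne_zero h2 hdet) h3
  have key := hPOL ι (cj B B' (hLie V)) N hstar
    (fun u hu hc => core hADAPT hOPT hCAS hFLAG hROOT hROT hHWM hHWE hARI hTOP hstar hlieB hb hY
      (hl_cj hB hL) hN hu hc) (B * h * B') hdetB ?_
  · -- the tensor as an intertwiner
    let M : Matrix (Fin n → ι) (Fin 0 → ι) ℂ := Matrix.of fun I _ => cx t I
    have hM : Tw (hLie V) 0 n M := by
      intro x hx
      rw [dTP_deg_zero, Matrix.mul_zero]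
      ext I J
      have h1 := congrFun ((hINV ι V n).1 t ht x hx) I
      rw [Matrix.mul_apply]
      exact h1
    have h1 := key 0 n (TP B n * M * TP B' 0) ((tw_cj hB).2 (by rwa [tw_back hB]))
    rw [cm_cj hB, tw_back hB, Cm, TP_deg_zero, Matrix.mul_one] at h1
    funext I
    have h2 := congrFun (congrFun h1 I) default
    rw [Matrix.mul_apply] at h2
    exact h2
  · intro i j hij M hM
    rw [cm_cj hB]
    exact hcm i j hij _ ((tw_cj hB).1 hM)

end Pool.Agent.Q271.ZG
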