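import Mathlib

/-!
# Project ZG: the arithmetic of the bound
-/

set_option autoImplicit false

namespace Pool.Agent.Q271.ZG

/-- the exponent is at least one -/
theorem one_le_min {t b : ℕ} (ht : 1 ≤ t) (hb : 1 ≤ b) :
    1 ≤ min (Real.sqrt (t * b)) ((b : ℝ) ^ (2 / 3 : ℝ)) := by
  have ht' : (1 : ℝ) ≤ t := by exact_mod_cast ht
  have hb' : (1 : ℝ) ≤ b := by exact_mod_cast hb
  refine le_min ?_ ?_
  · rw [Real.one_le_sqrt]
    nlinarith
  · exact Real.one_le_rpow hb' (by norm_num)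

theorem num_bound {t b d N : ℕ} (ht : 1 ≤ t) (hd : d + 1 ≤ b)
    (hN : Real.exp (64 * min (Real.sqrt (t * b)) ((b : ℝ) ^ (2 / 3 : ℝ)) *
      Real.log (2 * b)) ≤ N) :
    ∃ Y : ℕ, 1 ≤ Y ∧
      Real.exp (20 * min (Real.sqrt (t * b)) ((b : ℝ) ^ (2 / 3 : ℝ)) *
        Real.log (3 * b * (b * d + 1))) ≤ Y ∧ 6 * b ^ 4 * Y ≤ N := by
  have hb : 1 ≤ b := by omega
  have hb' : (1 : ℝ) ≤ b := by exact_mod_cast hb
  have hd' : (d : ℝ) + 1 ≤ b := by exact_mod_cast hd
  have hd0 : (0 : ℝ) ≤ d := Nat.cast_nonneg d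
  have hM := one_le_min ht hb
  set M := min (Real.sqrt (t * b)) ((b : ℝ) ^ (2 / 3 : ℝ)) with hMdef
  have hlog0 : 0 ≤ Real.log (2 * b) := Real.log_nonneg (by linarith)
  -- the logarithm
  have h1 : (3 * b * (b * d + 1) : ℝ) ≤ (2 * b) ^ 3 := by
    have h2 : (b : ℝ) * d + 1 ≤ b ^ 2 := by nlinarith
    calc (3 * b * (b * d + 1) : ℝ) ≤ 3 * b * b ^ 2 :=
          mul_le_mul_of_nonneg_left h2 (by linarith)
      _ ≤ (2 * b) ^ 3 := by nlinarith [pow_pos (by linarith : (0 : ℝ) < b) 3]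
  have h3 : Real.log (3 * b * (b * d + 1)) ≤ 3 * Real.log (2 * b) := by
    rw [← Real.log_rpow (by linarith)] 
    refine Real.log_le_log (by positivity) ?_
    refine h1.trans (le_of_eq ?_)
    norm_cast
  have h4 : Real.exp (20 * M * Real.log (3 * b * (b * d + 1))) ≤
      Real.exp (60 * M * Real.log (2 * b)) := by
    apply Real.exp_le_exp.2
    have : 20 * M * Real.log (3 * b * (b * d + 1)) ≤ 20 * M * (3 * Real.log (2 * b)) :=
      mul_le_mul_of_nonneg_left h3 (by linarith)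
    linarith
  have hE1 : 1 ≤ Real.exp (60 * M * Real.log (2 * b)) := by
    rw [Real.one_le_exp_iff]
    positivity
  refine ⟨⌈Real.exp (60 * M * Real.log (2 * b))⌉₊, ?_, h4.trans (Nat.le_ceil _), ?_⟩
  · exact Nat.one_le_iff_ne_zero.2 fun h => by
      have := Nat.le_ceil (Real.exp (60 * M * Real.log (2 * b)))
      rw [h] at this
      norm_num at this
      linarith [Real.exp_pos (60 * M * Real.log (2 * b))]
  · have h5 : (⌈Real.exp (60 * M * Real.log (2 * b))⌉₊ : ℝ) ≤
        2 * Real.exp (60 * M * Real.log (2 * b)) := by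
      have := Nat.ceil_lt_add_one (Real.exp_pos (60 * M * Real.log (2 * b))).le
      linarith
    have h6 : (6 * b ^ 4 * ⌈Real.exp (60 * M * Real.log (2 * b))⌉₊ : ℝ) ≤ N := by
      calc (6 * b ^ 4 * ⌈Real.exp (60 * M * Real.log (2 * b))⌉₊ : ℝ)
          ≤ 6 * b ^ 4 * (2 * Real.exp (60 * M * Real.log (2 * b))) :=
            mul_le_mul_of_nonneg_left h5 (by positivity)
        _ ≤ (2 * b) ^ 4 * Real.exp (60 * M * Real.log (2 * b)) := by
            have : 0 < (b : ℝ) ^ 4 * Real.exp (60 * M * Real.log (2 * b)) := by positivity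
            nlinarith
        _ = Real.exp (4 * Real.log (2 * b)) * Real.exp (60 * M * Real.log (2 * b)) := by
            congr 1
            rw [mul_comm (4 : ℝ), Real.exp_mul, Real.exp_log (by linarith)]
            norm_cast
        _ = Real.exp ((4 + 60 * M) * Real.log (2 * b)) := by
            rw [← Real.exp_add]; ring_nf
        _ ≤ Real.exp (64 * M * Real.log (2 * b)) := by
            apply Real.exp_le_exp.2
            exact mul_le_mul_of_nonneg_right (by linarith) hlog0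
        _ ≤ N := hN
    exact_mod_cast h6

/-- the exponent for the number `b` -/
theorem min_self (b : ℕ) :
    min (Real.sqrt (b * b)) ((b : ℝ) ^ (2 / 3 : ℝ)) ≤ (b : ℝ) ^ (2 / 3 : ℝ) := min_le_right _ _

end Pool.Agent.Q271.ZG
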