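import Mathlib
import Pool.Agent.Q271.ZG.Fix
import Pool.Agent.Q271.ZG.Num
import Pool.Agent.Q60.ED.ThmC
import Pool.Agent.Q60.HD.Bnd

/-!
# Project ZG: effective finite determination with the subexponential bound
-/

open CategoryTheory AlgebraicGeometry TensorProduct

set_option autoImplicit false
set_option linter.unusedSectionVars false

universe u v

namespace Pool.Agent.Q271.ZG

open Module Matrix Pool.Agent.Q60.ED

section

variable {ι : Type} [Fintype ι] [DecidableEq ι]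

theorem nIdem_card (V : PHS ι) : nIdem V (Fintype.card ι) := by
  intro s ε h1 h2
  have h3 : ∀ k, ∃ v : ι → ℚ, ε k *ᵥ v ≠ 0 := by
    intro k
    by_contra h4
    push Not at h4
    refine (h1 k).1 ?_
    ext i j
    have h5 := congrFun (h4 (Pi.single j 1)) i
    rwa [Matrix.mulVec_single_one] at h5
  choose v hv using h3
  have h4 : LinearIndependent ℚ fun k => ε k *ᵥ v k := by
    rw [Fintype.linearIndependent_iff]
    intro c hc l
    have h5 := congrArg (fun w => ε l *ᵥ w) hc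
    simp only [Matrix.mulVec_zero, Matrix.mulVec_sum, Matrix.mulVec_smul,
      Matrix.mulVec_mulVec] at h5
    rw [Finset.sum_eq_single l] at h5
    · rw [(h1 l).2.1] at h5
      exact (smul_eq_zero.1 h5).resolve_right (hv l)
    · intro k _ hk
      rw [h2 l k (Ne.symm hk), Matrix.zero_mulVec, smul_zero]
    · intro h6
      exact absurd (Finset.mem_univ _) h6
  have h5 := h4.fintype_card_le_finrank
  rwa [Fintype.card_fin, Module.finrank_fintype_fun_eq_card] at h5

theorem one_le_of_nIdem {V : PHS ι} (hb : 1 ≤ Fintype.card ι) {t : ℕ} (h : nIdem V t) :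
    1 ≤ t := by
  haveI : Nonempty ι := Fintype.card_pos_iff.1 hb
  refine h 1 (fun _ => 1) (fun k => ⟨one_ne_zero, mul_one _, ?_⟩) fun k l hkl =>
    absurd (Subsingleton.elim k l) hkl
  have h1 : qc (1 : Matrix ι ι ℚ) = 1 := Matrix.map_one _ Rat.cast_zero Rat.cast_one
  rw [h1]
  exact Ctr_one

end

/-- the statements of the jobs -/
structure Jobs : Prop where
  hADAPT : S_ADAPT
  hOPT : S_OPT
  hCAS : S_CAS
  hFLAG : S_FLAG
  hROOT : S_ROOT
  hROT : S_ROT
  hHWM : S_HWM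
  hHWE : S_HWE
  hARI : S_ARI
  hTOP : S_TOP
  hPOL : S_POL
  hSTAR : S_STAR
  hINV : S_INV
  hGAL : S_GAL

section

variable {ι : Type} [Fintype ι] [DecidableEq ι]

/-- the bound -/
def Bd (t b N : ℕ) : Prop :=
  Real.exp (64 * min (Real.sqrt (t * b)) ((b : ℝ) ^ (2 / 3 : ℝ)) * Real.log (2 * b)) ≤ N

theorem fix_all' (J : Jobs) (V : PHS ι) {t N : ℕ} (ht : nIdem V t)
    (hd : V.d + 1 ≤ Fintype.card ι) (hN : Bd t (Fintype.card ι) N) {h : Matrix ι ι ℂ}
    (hh : ∀ m ≤ N, ∀ t ∈ V.T m, tpow h m (cx t) = cx t) {n : ℕ} {u : (Fin n → ι) → ℚ}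
    (hu : u ∈ V.T n) : tpow h n (cx u) = cx u := by
  have hb : 1 ≤ Fintype.card ι := by omega
  obtain ⟨Y, hY, h1, h2⟩ := num_bound (one_le_of_nIdem hb ht) hd hN
  exact fix_of_HL J.hADAPT J.hOPT J.hCAS J.hFLAG J.hROOT J.hROT J.hHWM J.hHWE J.hARI J.hTOP
    J.hPOL J.hSTAR J.hINV V hb hY (J.hGAL ι V t Y hb ht h1) h2 hh hu

theorem two_le_of_Bd {t b N : ℕ} (ht : 1 ≤ t) (hb : 1 ≤ b) (hN : Bd t b N) : 2 ≤ N := by
  have h1 := one_le_min ht hb
  have hb' : (1 : ℝ) ≤ b := by exact_mod_cast hb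
  have h2 : Real.log 2 ≤ Real.log (2 * b) := Real.log_le_log (by norm_num) (by linarith)
  have h3 : (2 : ℝ) ≤ N := by
    refine le_trans ?_ hN
    calc (2 : ℝ) = Real.exp (Real.log 2) := (Real.exp_log (by norm_num)).symm
      _ ≤ _ := by
        apply Real.exp_le_exp.2
        have h4 : 0 < Real.log 2 := Real.log_pos (by norm_num)
        nlinarith
  exact_mod_cast h3

theorem eq_top' (J : Jobs) {V : PHS ι} (S : PSys V.Q) (hS : ∀ n, S.S n ≤ V.T n) {t N : ℕ}
    (ht : nIdem V t) (hd : V.d + 1 ≤ Fintype.card ι) (hN : Bd t (Fintype.card ι) N)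
    (h : ∀ m ≤ N, V.T m ≤ S.S m) (n : ℕ) : V.T n ≤ S.S n := by
  obtain ⟨T, hT⟩ := S.exists_tsys hS
  intro t ht'
  rw [← hT]
  apply TSys.of_mem_cplx
  have hOm : cx (PHS.Om V.Q) ∈ T.cplx.S 2 := by
    apply TSys.mem_cplx
    rw [hT]
    exact S.cas
  have hdet : (mat2 (cx (PHS.Om V.Q))).det ≠ 0 := by
    rw [PHS.mat2_Om, qc_inv PHS.qc_det]
    intro h0
    have h1 := congrArg Matrix.det
      (Matrix.mul_nonsing_inv (qc V.Q) (isUnit_iff_ne_zero.2 (PHS.qc_det (V := V))))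
    rw [Matrix.det_mul, h0, mul_zero, Matrix.det_one] at h1
    exact zero_ne_one h1
  refine T.cplx.mem_of_fixed hOm hdet fun g hg => ?_
  refine fix_all' J V ht hd hN (fun m hm s hs => ?_) ht'
  refine hg m _ (TSys.mem_cplx ?_)
  rw [hT]
  exact h m hm hs

end

section HD

open Pool.Agent.H914 Pool.Agent.H914.VarClass Pool.Agent.H914.VarClass.Obj
  Pool.Agent.H914.WeilCohomology
open Pool.Agent.Y133.Half Pool.Agent.Y121.AH Pool.Agent.Q60.HD

variable {k : Type u} [Field k] {𝒱 : VarClass k} {ops : CycleOps 𝒱} {T : HodgeTheory ops}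
  {X Y Z : 𝒱.Obj}

/-- **Effective finite determination.** -/
theorem effective' (J : Jobs) (hR : RealH T X) {φ : Module.End T.W.K (T.W.H X)}
    (hφ : IsPol T X φ) (S : Sys T.W) (hS : ∀ Z, S.C Z ≤ (hodgeSys T).C Z)
    (hd : X.dim + 1 ≤ finrank T.W.K (T.W.H X)) {N : ℕ}
    (hN : Bd (finrank T.W.K (T.W.H X)) (finrank T.W.K (T.W.H X)) N)
    (h : ∀ n, n + 1 ≤ N → (hodgeSys T).C (pw X n) ≤ S.C (pw X n)) (n : ℕ) :
    (hodgeSys T).C (pw X n) ≤ S.C (pw X n) := by
  classical
  obtain ⟨e, he⟩ := exists_hbasis T.W X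
  choose a ha using he
  have hN2 : 2 ≤ N := two_le_of_Bd (by omega) (by omega) hN
  have h2 : (hodgeSys T).C (X.prod X) ≤ S.C (X.prod X) := h 1 (by omega)
  have hOp : (hodgeSys T).Op X X ≤ S.Op X X := Submodule.map_mono h2
  have hpar : par (T.W.isInternal X) ∈ S.Op X X := hOp par_mem
  have hφS : φ ∈ S.Op X X := hOp hφ.mem
  have hQ : ∀ i j, ((Qm e φ i j : ℚ) : T.W.K) = T.W.tr X (φ (e i) * e j) := fun i j => rt_spec _
  have hTS : ∀ m ≤ N, (phs e hR hφ).T m ≤ crd e S m := by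
    intro m hm t ht
    rw [T_eq_crd] at ht
    cases m with
    | zero => exact mem_crd_zero e t
    | succ m =>
      rw [mem_crd_succ] at ht ⊢
      exact h m hm ht
  let P : PSys (phs e hR hφ).Q :=
    { S := crd e S
      one := mem_crd_zero e _
      mul := fun hs ht => crd_mul e hs ht
      perm := fun σ _ ht => crd_perm e ha hpar σ ht
      contr := fun hs ht => crd_contr e ha hpar hφS hQ hs ht
      cas := hTS 2 (by omega) PHS.Om_mem }
  have hle : ∀ m, P.S m ≤ (phs e hR hφ).T m := by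
    intro m
    rw [T_eq_crd]
    intro t ht Z f
    exact hS _ (ht Z f)
  have hcard : Fintype.card (Fin (finrank T.W.K (T.W.H X))) = finrank T.W.K (T.W.H X) :=
    Fintype.card_fin _
  have hid := nIdem_card (phs e hR hφ)
  rw [hcard] at hid
  have key := eq_top' J P hle hid (by rw [hcard]; exact hd) (by rw [hcard]; exact hN) hTS (n + 1)
  intro c hc
  obtain ⟨t, ht⟩ := exists_tensor e c
  rw [← ht] at hc ⊢
  rw [← mem_crd_succ, ← T_eq_crd e hR hφ] at hc
  exact (mem_crd_succ (e := e)).1 (key hc)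

/-- the bound in terms of the total Betti number only -/
theorem Bd_self {b N : ℕ}
    (hN : Real.exp (64 * (b : ℝ) ^ (2 / 3 : ℝ) * Real.log (2 * b)) ≤ N) : Bd b b N := by
  refine le_trans (Real.exp_le_exp.2 ?_) hN
  rcases Nat.eq_zero_or_pos b with rfl | hb
  · simp
  · have hb' : (1 : ℝ) ≤ b := by exact_mod_cast hb
    refine mul_le_mul_of_nonneg_right ?_ (Real.log_nonneg (by linarith))
    exact mul_le_mul_of_nonneg_left (min_le_right _ _) (by norm_num)

/-- **One power decides**: the single power `X ^ N` with `N = exp (64 b ^ (2/3) log (2 b))`. -/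
theorem one_power' (J : Jobs) (hR : RealH T X) {φ : Module.End T.W.K (T.W.H X)}
    (hφ : IsPol T X φ) (S : Sys T.W) (hS : ∀ Z, S.C Z ≤ (hodgeSys T).C Z) {N : ℕ}
    (hN : Real.exp (64 * (finrank T.W.K (T.W.H X) : ℝ) ^ (2 / 3 : ℝ) *
      Real.log (2 * finrank T.W.K (T.W.H X))) ≤ (N + 1 : ℕ))
    (h : (hodgeSys T).C (pw X N) ≤ S.C (pw X N)) (n : ℕ) :
    (hodgeSys T).C (pw X n) ≤ S.C (pw X n) := by
  by_cases hX : Nontrivial (T.W.H X)
  · obtain ⟨E, hE⟩ := T.dec.polar X
    have h1 := dim_lt hE.1 hE.2.1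
    refine effective' J hR hφ S hS h1 (Bd_self hN) (fun m hm => ?_) n
    exact le_of_le S (by omega) h
  · intro c _
    have h1 : finrank T.W.K (T.W.H X) = 0 := by
      by_contra h2
      exact hX (Module.nontrivial_of_finrank_pos (R := T.W.K) (Nat.pos_of_ne_zero h2))
    have h2 : finrank T.W.K (T.W.H (pw X n)) = 0 := by
      rw [finrank_pw, h1, zero_pow (Nat.succ_ne_zero n)]
    have h3 : Subsingleton (T.W.H (pw X n)) := Module.finrank_zero_iff.1 h2
    rw [Subsingleton.elim c 0]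
    exact Submodule.zero_mem _

end HD

end Pool.Agent.Q271.ZG
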