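import Mathlib
import Pool.Agent.Q271.ZG.Eff
import Pool.Agent.Q261.ZG.ADAPT
import Pool.Agent.Q261.ZG.OPT
import Pool.Agent.Q211.ZG.CAS
import Pool.Agent.Q211.ZG.PRJ
import Pool.Agent.Q261.ZG.WDG
import Pool.Agent.Q239.ZG.ROOT
import Pool.Agent.Q211.ZG.ROT
import Pool.Agent.Q211.ZG.TOP
import Pool.Agent.Q261.ZG.HWM
import Pool.Agent.Q211.ZG.HWE
import Pool.Agent.Q251.ZG.ARI
import Pool.Agent.Q239.ZG.POL
import Pool.Agent.Q239.ZG.FLAG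
import Pool.Agent.Q251.ZG.STAR
import Pool.Agent.Q241.ZG.INV
import Pool.Agent.Q239.ZG.GAL

/-!
# Project ZG: the jobs
-/

set_option autoImplicit false

namespace Pool.Agent.Q271.ZG

theorem jobs : Jobs where
  hADAPT := Pool.Agent.Q261.ZG.main_ADAPT
  hOPT := Pool.Agent.Q261.ZG.main_OPT
  hCAS := Pool.Agent.Q211.ZG.main_CAS
  hFLAG := Pool.Agent.Q239.ZG.main_FLAG Pool.Agent.Q211.ZG.main_DOM Pool.Agent.Q211.ZG.main_PRJ
    Pool.Agent.Q261.ZG.main_WDG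
  hROOT := Pool.Agent.Q239.ZG.main_ROOT
  hROT := Pool.Agent.Q211.ZG.main_ROT
  hHWM := Pool.Agent.Q261.ZG.main_HWM
  hHWE := Pool.Agent.Q211.ZG.main_HWE
  hARI := Pool.Agent.Q251.ZG.main
  hTOP := Pool.Agent.Q211.ZG.main_TOP
  hPOL := Pool.Agent.Q239.ZG.PL.main_POL
  hSTAR := Pool.Agent.Q251.ZG.main_STAR
  hINV := Pool.Agent.Q241.ZG.main_INV
  hGAL := Pool.Agent.Q239.ZG.GL.main_GAL Pool.Agent.Q251.ZG.main_STAR
    Pool.Agent.Q261.ZG.main_ADAPT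

end Pool.Agent.Q271.ZG
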