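import Pool.Agent.Q60.PB.HC
import Pool.Agent.Q60.HD.Law
import Pool.Agent.Q271.ZG.Eff

/-!
# Project ZG: the Hodge conjecture for all powers is decided by one power
-/

open CategoryTheory AlgebraicGeometry TensorProduct

set_option autoImplicit false
set_option linter.unusedSectionVars false

universe u v

namespace Pool.Agent.Q271.ZG

open Module
open Pool.Agent.H914 Pool.Agent.H914.VarClass Pool.Agent.H914.VarClass.Obj
  Pool.Agent.H914.WeilCohomology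
open Pool.Agent.Y121 Pool.Agent.Y121.AHS Pool.Agent.Y133.Half
open Pool.Agent.Q60.HDS Pool.Agent.Q60.FI Pool.Agent.Q60

/-- the bound in terms of the total Betti number -/
def BB (b N : ℕ) : Prop :=
  Real.exp (64 * (b : ℝ) ^ (2 / 3 : ℝ) * Real.log (2 * b)) ≤ N

theorem BB_mono {b N N' : ℕ} (h : BB b N) (hN : N ≤ N') : BB b N' :=
  le_trans h (by exact_mod_cast hN)

theorem eight_le {b N : ℕ} (hb : 0 < b) (h : BB b N) : 8 ≤ N := by
  have hb' : (1 : ℝ) ≤ b := by exact_mod_cast hb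
  have h1 : (1 : ℝ) ≤ (b : ℝ) ^ (2 / 3 : ℝ) := Real.one_le_rpow hb' (by norm_num)
  have h2 : Real.log 2 ≤ Real.log (2 * b) := Real.log_le_log (by norm_num) (by linarith)
  have h4 : 0 < Real.log 2 := Real.log_pos (by norm_num)
  have h3 : (8 : ℝ) ≤ N := by
    refine le_trans ?_ h
    calc (8 : ℝ) = Real.exp (3 * Real.log 2) := by
          rw [mul_comm, Real.exp_mul, Real.exp_log (by norm_num)]
          norm_num
      _ ≤ _ := by
        apply Real.exp_le_exp.2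
        nlinarith [mul_le_mul h1 h2 h4.le (by linarith)]
  exact_mod_cast h3

section

variable {k : Type u} [Field k] {𝒱 : VarClass k} {ops : CycleOps 𝒱} {T : AH.HodgeTheory ops}
  {X : 𝒱.Obj}

/-- **The uniform half law.** -/
theorem uniform' (J : Jobs) (hR : HD.RealH T X) {φ : Module.End T.W.K (T.W.H X)}
    (hφ : HD.IsPol T X φ) (S : Sys T.W) (hS : ∀ Z, S.C Z ≤ (AH.hodgeSys T).C Z)
    (hS1 : ∀ Z : 𝒱.Obj, ∀ z : Z.Cycles, Z.IsCyc 1 z → T.W.cl Z z ∈ S.C Z) {ε : ℝ} (hε : 0 < ε)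
    {N : ℕ} (hN : BB (finrank T.W.K (T.W.H X)) N) (hX0 : 0 < finrank T.W.K (T.W.H X))
    {n : ℕ} (hn : (2 * (finrank T.W.K (T.W.H X) : ℝ)) ^ (3 * N + 3) / ε ^ 2 ≤ n + 1)
    (h : (1 / 2 + ε) * finrank T.W.K ((AH.hodgeSys T).C (pw X n)) < S.a (pw X n)) (m : ℕ) :
    (AH.hodgeSys T).C (pw X m) ≤ S.C (pw X m) := by
  have hX : Nontrivial (T.W.H X) := Module.nontrivial_of_finrank_pos (R := T.W.K) hX0
  obtain ⟨l, hl, hl1⟩ := HD.exists_tr_sys (X := X) S hS1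
  have h8 := eight_le hX0 hN
  have hpos : ∀ n, 0 < S.al X n := by
    intro n
    obtain ⟨m, hm, hm1⟩ := S.exists_lam hl hl1 n
    refine S.a_pos (Sys.xp_mem_C S hm hm) ?_
    rw [tr_xp, hm1, mul_one]
  have hbot : ∀ m, S.C (pw X m) ≠ ⊥ := by
    intro m hm
    obtain ⟨y, hy, hy1⟩ := S.exists_lam hl hl1 m
    rw [hm, Submodule.mem_bot] at hy
    exact ne_zero_of_tr hy1 hy
  by_contra hcon
  have hlt : ∀ m, N + N % 2 ≤ m + 1 → S.C (pw X m) < (AH.hodgeSys T).C (pw X m) := by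
    intro m' hm'
    refine lt_of_le_of_ne (hS _) fun heq => hcon ?_
    exact one_power' J hR hφ S hS (N := m') (BB_mono hN (by omega)) heq.ge m
  have hb1 : (1 : ℝ) ≤ 2 * (finrank T.W.K (T.W.H X) : ℝ) := by
    have : (1 : ℝ) ≤ (finrank T.W.K (T.W.H X) : ℝ) := by exact_mod_cast hX0
    linarith
  have hn' : (2 * (finrank T.W.K (T.W.H X) : ℝ)) ^ (3 * (N + N % 2)) / ε ^ 2 ≤ n + 1 := by
    refine le_trans ?_ hn
    exact div_le_div_of_nonneg_right (pow_le_pow_right₀ hb1 (by omega)) (by positivity)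
  have key := HD.uniform_half hS hX0 hpos hbot (by omega) (by omega) hlt hε hn'
  exact absurd key (not_le.2 h)

end

variable {k : Type u} [Field k] {𝒱 : VarClass k} {ops : CycleOps 𝒱}

variable {T : AHS.HodgeTheory ops} {X : 𝒱.Obj}

/-- The two bounds. -/
theorem gen_power' (J : Jobs) (hp : Polarisable T X) (S : Sys (toH T).W)
    (hS : ∀ Z, S.C Z ≤ (AH.hodgeSys (toH T)).C Z) {b N : ℕ}
    (hb : finrank T.W.K (T.W.H X) = b)
    (hN : BB b (N + 1) ∨ b ^ 3 ≤ N + 1 ∧ TotallyRealCentre T X)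
    (h : (AH.hodgeSys (toH T)).C (pw X N) ≤ S.C (pw X N)) (n : ℕ) :
    (AH.hodgeSys (toH T)).C (pw X n) ≤ S.C (pw X n) := by
  obtain ⟨φ, hφ⟩ := hp.exists_isPol
  rcases hN with hN | ⟨hN, hc⟩
  · refine one_power' J hp.realH hφ S hS (N := N) ?_ h n
    rw [← hb] at hN
    exact hN
  · refine PB.one_power hp.realH hφ S hS hc.noSkew (N := N) ?_ h n
    refine le_trans (le_of_eq ?_) hN
    rw [← hb]
    rfl

theorem gen_half' (J : Jobs) (hp : Polarisable T X) (S : Sys (toH T).W)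
    (hS : ∀ Z, S.C Z ≤ (AH.hodgeSys (toH T)).C Z)
    (hS1 : ∀ Z : 𝒱.Obj, ∀ z : Z.Cycles, Z.IsCyc 1 z → T.W.cl Z z ∈ S.C Z) {b N : ℕ}
    (hb : finrank T.W.K (T.W.H X) = b)
    (hN : BB b (N + 1) ∨ b ^ 3 ≤ N + 1 ∧ TotallyRealCentre T X)
    {ε : ℝ} (hε : 0 < ε) {n : ℕ} (hn : (2 * b : ℝ) ^ (3 * N + 6) / ε ^ 2 ≤ n + 1)
    (h : (1 / 2 + ε) * finrank (toH T).W.K ((AH.hodgeSys (toH T)).C (pw X n)) <
      S.a (pw X n)) (m : ℕ) :
    (AH.hodgeSys (toH T)).C (pw X m) ≤ S.C (pw X m) := by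
  obtain ⟨φ, hφ⟩ := hp.exists_isPol
  have hb' : finrank (toH T).W.K ((toH T).W.H X) = b := hb
  rcases Nat.eq_zero_or_pos b with h0 | h0
  · intro c _
    exact PB.le_of_finrank_le_one S (by omega) _ c
  have hb1 : (1 : ℝ) ≤ 2 * (b : ℝ) := by
    have : (1 : ℝ) ≤ (b : ℝ) := by exact_mod_cast h0
    linarith
  rcases hN with hN | ⟨hN, hc⟩
  · refine uniform' J hp.realH hφ S hS hS1 hε (N := N + 1) (n := n) ?_ (by omega) ?_ h m
    · rw [hb']; exact hN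
    · rw [hb']; exact hn
  · refine PB.uniform hp.realH hφ S hS hS1 hc.noSkew hε (n := n) ?_ h m
    refine le_trans ?_ hn
    rw [hb']
    exact div_le_div_of_nonneg_right (pow_le_pow_right₀ hb1 (by omega)) (by positivity)

/-- **The Hodge conjecture.** -/
theorem hc_main' (J : Jobs) (T : AHS.HodgeTheory ops) (X : 𝒱.Obj) (hp : Polarisable T X)
    {b N : ℕ} (hb : finrank T.W.K (T.W.H X) = b)
    (hN : BB b (N + 1) ∨ b ^ 3 ≤ N + 1 ∧ TotallyRealCentre T X) :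
    (HCFor T (pw X N) → ∀ n, HCFor T (pw X n)) ∧
    ∀ ε : ℝ, 0 < ε → ∀ n : ℕ, (2 * b : ℝ) ^ (3 * N + 6) / ε ^ 2 ≤ n + 1 →
      (1 / 2 + ε) * hodgeDim T (pw X n) < cycleRank ops (pw X n) → ∀ m, HCFor T (pw X m) := by
  refine ⟨fun h n => hcFor_iff.2 (gen_power' J hp (algSys (toH T).W)
    (fun Z => ClassPred.alg_le (Q := AH.hodgePred (toH T))) hb hN (hcFor_iff.1 h) n),
    fun ε hε n hn h m => hcFor_iff.2 (gen_half' J hp (algSys (toH T).W)
      (fun Z => ClassPred.alg_le (Q := AH.hodgePred (toH T)))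
      (fun Z z hz => Pool.Agent.W536.RR.cl_mem_algSpan hz) hb hN hε hn ?_ m)⟩
  rw [cycleRank_eq, ← numDim_eq_cycRank T.W] at h
  exact h

/-- **Absolutely Hodge classes.** -/
theorem abs_main' (J : Jobs) (T : AHS.HodgeTheory ops) (D : Full.Conjugates T) (X : 𝒱.Obj)
    (hp : Polarisable T X) {b N : ℕ} (hb : finrank T.W.K (T.W.H X) = b)
    (hN : BB b (N + 1) ∨ b ^ 3 ≤ N + 1 ∧ TotallyRealCentre T X) :
    ((∀ j c, IsHodge T (pw X N) j c → Full.IsAbsHodge D (pw X N) j c) →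
      ∀ n, ∀ j c, IsHodge T (pw X n) j c → Full.IsAbsHodge D (pw X n) j c) ∧
    ∀ ε : ℝ, 0 < ε → ∀ n : ℕ, (2 * b : ℝ) ^ (3 * N + 6) / ε ^ 2 ≤ n + 1 →
      (1 / 2 + ε) * hodgeDim T (pw X n) < Full.absDim D (pw X n) →
      ∀ m, ∀ j c, IsHodge T (pw X m) j c → Full.IsAbsHodge D (pw X m) j c := by
  refine ⟨fun h n => abs_le_iff'.1 (gen_power' J hp (AH.absSys (T := toH T) (Full.toD D))
    (fun Z => AH.abs_le_hodge (Full.toD D) Z) hb hN (abs_le_iff'.2 h) n),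
    fun ε hε n hn h m => abs_le_iff'.1 (gen_half' J hp (AH.absSys (T := toH T) (Full.toD D))
    (fun Z => AH.abs_le_hodge (Full.toD D) Z)
    (fun Z z hz => ClassPred.alg_le (Q := AH.absPred (T := toH T) (Full.toD D))
      (Pool.Agent.W536.RR.cl_mem_algSpan hz)) hb hN hε hn ?_ m)⟩
  rw [← Full.absDim_eq, AH.absDim_eq_a] at h
  exact h

theorem sub_one {b N : ℕ} (hN : BB b N ∨ b ^ 3 ≤ N ∧ TotallyRealCentre T X) :
    BB b (N - 1 + 1) ∨ b ^ 3 ≤ N - 1 + 1 ∧ TotallyRealCentre T X := by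
  rcases hN with hN | ⟨hN, hc⟩
  · exact Or.inl (BB_mono hN (by omega))
  · exact Or.inr ⟨by omega, hc⟩

theorem sub_half {b N n : ℕ} {ε : ℝ} (h : (2 * b : ℝ) ^ (3 * N + 3) / ε ^ 2 ≤ n) (hN : 1 ≤ N ∨ b = 0) :
    (2 * b : ℝ) ^ (3 * (N - 1) + 6) / ε ^ 2 ≤ ((n - 1 : ℕ) : ℝ) + 1 := by
  have hn1 : (n : ℝ) ≤ ((n - 1 : ℕ) : ℝ) + 1 := by
    exact_mod_cast (by omega : n ≤ n - 1 + 1)
  refine le_trans ?_ (h.trans hn1)
  rcases hN with hN | rfl
  · have h1 : 3 * (N - 1) + 6 = 3 * N + 3 := by omega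
    rw [h1]
  · norm_num

theorem one_le_or {b N : ℕ} (hN : BB b N ∨ b ^ 3 ≤ N ∧ TotallyRealCentre T X) :
    1 ≤ N ∨ b = 0 := by
  rcases Nat.eq_zero_or_pos b with h0 | h0
  · exact Or.inr h0
  · left
    rcases hN with hN | ⟨hN, -⟩
    · have := eight_le h0 hN
      omega
    · exact le_trans (Nat.one_le_pow 3 b h0) hN

/-- **The Hodge conjecture**, counting the copies of `X`. -/
theorem hc_powers' (J : Jobs) (T : AHS.HodgeTheory ops) (X : 𝒱.Obj) (hp : Polarisable T X)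
    {b N : ℕ} (hb : finrank T.W.K (T.W.H X) = b)
    (hN : BB b N ∨ b ^ 3 ≤ N ∧ TotallyRealCentre T X) :
    (HCFor T (pw X (N - 1)) → ∀ n, HCFor T (pw X (n - 1))) ∧
    ∀ ε : ℝ, 0 < ε → ∀ n : ℕ, (2 * b : ℝ) ^ (3 * N + 3) / ε ^ 2 ≤ n →
      (1 / 2 + ε) * hodgeDim T (pw X (n - 1)) < cycleRank ops (pw X (n - 1)) →
      ∀ m, HCFor T (pw X (m - 1)) := by
  obtain ⟨h1, h2⟩ := hc_main' J T X hp hb (sub_one hN)
  exact ⟨fun h n => h1 h (n - 1), fun ε hε n hn h m =>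
    h2 ε hε (n - 1) (sub_half hn (one_le_or hN)) h (m - 1)⟩

/-- **Absolutely Hodge classes**, counting the copies of `X`. -/
theorem abs_powers' (J : Jobs) (T : AHS.HodgeTheory ops) (D : Full.Conjugates T) (X : 𝒱.Obj)
    (hp : Polarisable T X) {b N : ℕ} (hb : finrank T.W.K (T.W.H X) = b)
    (hN : BB b N ∨ b ^ 3 ≤ N ∧ TotallyRealCentre T X) :
    ((∀ j c, IsHodge T (pw X (N - 1)) j c → Full.IsAbsHodge D (pw X (N - 1)) j c) →
      ∀ n, ∀ j c, IsHodge T (pw X (n - 1)) j c → Full.IsAbsHodge D (pw X (n - 1)) j c) ∧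
    ∀ ε : ℝ, 0 < ε → ∀ n : ℕ, (2 * b : ℝ) ^ (3 * N + 3) / ε ^ 2 ≤ n →
      (1 / 2 + ε) * hodgeDim T (pw X (n - 1)) < Full.absDim D (pw X (n - 1)) →
      ∀ m, ∀ j c, IsHodge T (pw X (m - 1)) j c → Full.IsAbsHodge D (pw X (m - 1)) j c := by
  obtain ⟨h1, h2⟩ := abs_main' J T D X hp hb (sub_one hN)
  exact ⟨fun h n => h1 h (n - 1), fun ε hε n hn h m =>
    h2 ε hε (n - 1) (sub_half hn (one_le_or hN)) h (m - 1)⟩

end Pool.Agent.Q271.ZG
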